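import Pool.Agent.R956.K11
import Pool.Agent.R956.K9

/-!
Numbers of walks `c n` and the non-intersection probabilities `c (2 n) / c n ^ 2`: equivalent power
laws, along all lengths or along sparse sets of lengths.
-/

set_option autoImplicit false

namespace Pool.Agent.Zk87.SW

open Filter Topology
open Pool.Agent.Y943.SL

variable {c : ℕ → ℝ} {μ : ℝ}

/-- gaps `o(√n)` in both parity classes -/
def Gaps2 (S : Set ℕ) : Prop :=
  ∀ δ : ℝ, 0 < δ → ∀ᶠ n : ℕ in atTop, ∃ m ∈ S, m % 2 = n % 2 ∧ n ≤ m ∧ (m : ℝ) ≤ n + δ * √n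

/-- gaps `o(√(n log n))` -/
def LogGaps (S : Set ℕ) : Prop :=
  ∀ δ : ℝ, 0 < δ → ∀ᶠ n : ℕ in atTop, ∃ m ∈ S, n ≤ m ∧ (m : ℝ) ≤ n + δ * √(n * Real.log n)

lemma gaps2_univ : Gaps2 Set.univ := by
  intro δ hδ
  filter_upwards with n
  refine ⟨n, Set.mem_univ _, rfl, le_rfl, ?_⟩
  have := mul_nonneg hδ.le (Real.sqrt_nonneg (n : ℝ))
  linarith

/-- the even elements of a set with gaps `o(√n)` in both parity classes -/
lemma gaps_even {S : Set ℕ} (h : Gaps2 S) : ∀ δ : ℝ, 0 < δ → ∀ᶠ n : ℕ in atTop,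
    ∃ m ∈ {m | m ∈ S ∧ Even m}, n ≤ m ∧ (m : ℝ) ≤ n + δ * √(n : ℝ) := by
  intro δ hδ
  have h1 := h (δ / 4) (by positivity)
  have h2 := (tendsto_add_atTop_nat 1).eventually h1
  have h3 : ∀ᶠ n : ℕ in atTop, 4 / δ ≤ √(n : ℝ) :=
    (Real.tendsto_sqrt_atTop.comp tendsto_natCast_atTop_atTop).eventually_ge_atTop _
  filter_upwards [h1, h2, h3, eventually_ge_atTop 1] with n g1 g2 g3 hn
  have hn1 : (1 : ℝ) ≤ n := by exact_mod_cast hn
  rw [div_le_iff₀ hδ] at g3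
  rcases Nat.even_or_odd n with he | ho
  · obtain ⟨m, hm, hp, h5, h6⟩ := g1
    refine ⟨m, ⟨hm, ?_⟩, h5, ?_⟩
    · rw [Nat.even_iff] at he ⊢; omega
    · have : 0 ≤ √(n : ℝ) := Real.sqrt_nonneg _
      nlinarith
  · obtain ⟨m, hm, hp, h5, h6⟩ := g2
    refine ⟨m, ⟨hm, ?_⟩, by omega, ?_⟩
    · rw [Nat.odd_iff] at ho; rw [Nat.even_iff]; omega
    · have h7 : √((n + 1 : ℕ) : ℝ) ≤ 2 * √(n : ℝ) := by
        rw [show (2 : ℝ) * √(n : ℝ) = √(4 * n) by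
          rw [Real.sqrt_mul (by norm_num), show (4 : ℝ) = 2 ^ 2 by norm_num,
            Real.sqrt_sq (by norm_num)]]
        refine Real.sqrt_le_sqrt ?_
        push_cast
        linarith
      have h8 := mul_le_mul_of_nonneg_left h7 (show 0 ≤ δ / 4 by positivity)
      push_cast at h6 h8 ⊢
      nlinarith

/-- the basic identity -/
lemma sq_id (W : Wk c μ) {a : ℝ} {n : ℕ} (hn : 1 ≤ n) :
    (c n / (μ ^ n * (n : ℝ) ^ a)) ^ 2 = (c (2 * n) / (μ ^ (2 * n) * ((2 * n : ℕ) : ℝ) ^ a)) * 2 ^ a /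
      (c (2 * n) / c n ^ 2 * (n : ℝ) ^ a) := by
  have hn0 : (0 : ℝ) < n := by exact_mod_cast hn
  have h1 := (W.cpos n).ne'
  have h2 := (W.cpos (2 * n)).ne'
  have h3 := (pow_pos W.hμ n).ne'
  have h4 : (n : ℝ) ^ a ≠ 0 := (Real.rpow_pos_of_pos hn0 a).ne'
  have h5 : (2 : ℝ) ^ a ≠ 0 := (Real.rpow_pos_of_pos (by norm_num) a).ne'
  have e : ((2 * n : ℕ) : ℝ) ^ a = 2 ^ a * (n : ℝ) ^ a := by
    push_cast
    rw [Real.mul_rpow (by norm_num) hn0.le]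
  rw [e, show 2 * n = n + n by ring, pow_add]
  rw [show n + n = 2 * n by ring]
  field_simp

lemma even_tend {g : ℕ → ℝ} {A : ℝ} (h : Tendsto g atTop (𝓝 A)) :
    Tendsto (fun n : ℕ => g (2 * n)) atTop (𝓝 A) :=
  h.comp (tendsto_id.const_mul_atTop' (by norm_num))

/-- from the numbers of walks to the non-intersection probability -/
lemma to_P (W : Wk c μ) {a A : ℝ} (hA : 0 < A)
    (h : Tendsto (fun n : ℕ => c n / (μ ^ n * (n : ℝ) ^ a)) atTop (𝓝 A)) :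
    Tendsto (fun n : ℕ => c (2 * n) / c n ^ 2 * (n : ℝ) ^ a) atTop (𝓝 (2 ^ a / A)) := by
  have h1 := ((even_tend h).mul_const (2 ^ a)).div (h.pow 2) (by positivity)
  rw [show A * 2 ^ a / A ^ 2 = 2 ^ a / A by field_simp] at h1
  refine h1.congr' ?_
  filter_upwards [eventually_ge_atTop 1] with n hn
  have hn0 : (0 : ℝ) < n := by exact_mod_cast hn
  have h2 : 0 < c (2 * n) / c n ^ 2 * (n : ℝ) ^ a := by
    have := W.cpos n
    have := W.cpos (2 * n)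
    have := Real.rpow_pos_of_pos hn0 a
    positivity
  have h3 : 0 < c (2 * n) / (μ ^ (2 * n) * ((2 * n : ℕ) : ℝ) ^ a) * 2 ^ a := by
    have := W.cpos (2 * n)
    have := pow_pos W.hμ (2 * n)
    have : 0 < ((2 * n : ℕ) : ℝ) ^ a := Real.rpow_pos_of_pos (by exact_mod_cast (by omega)) a
    have : (0 : ℝ) < 2 ^ a := Real.rpow_pos_of_pos (by norm_num) a
    positivity
  show c (2 * n) / (μ ^ (2 * n) * ((2 * n : ℕ) : ℝ) ^ a) * 2 ^ a /
    (c n / (μ ^ n * (n : ℝ) ^ a)) ^ 2 = _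
  rw [sq_id W hn, div_div_eq_mul_div, mul_comm, mul_div_assoc, div_self h3.ne', mul_one]

/-- from the non-intersection probability along a sparse set of lengths to the numbers of walks -/
lemma of_P (W : Wk c μ) {a A : ℝ} (hA : 0 < A) {S : Set ℕ} (hS : Gaps2 S)
    (h : Tendsto (fun n : ℕ => c (2 * n) / c n ^ 2 * (n : ℝ) ^ a) (atTop ⊓ 𝓟 S)
      (𝓝 (2 ^ a / A))) :
    Tendsto (fun n : ℕ => c n / (μ ^ n * (n : ℝ) ^ a)) atTop (𝓝 A) := by
  have h2a : (0 : ℝ) < 2 ^ a := Real.rpow_pos_of_pos (by norm_num) a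
  have hB : 0 < 2 ^ a / A := by positivity
  have hsub : (atTop ⊓ 𝓟 {m | m ∈ S ∧ Even m} : Filter ℕ) ≤ atTop ⊓ 𝓟 S :=
    inf_le_inf_left _ (principal_mono.2 fun m hm => hm.1)
  obtain ⟨h1, -⟩ := Pool.Agent.R956.K11.form W (S := {m | m ∈ S ∧ Even m}) (fun m hm => hm.2)
    (gaps_even hS) hB (h.mono_left hsub)
  rw [show 2 ^ a / (2 ^ a / A) = A by field_simp] at h1
  have h1' : Tendsto (fun n : ℕ => c (2 * n) / (μ ^ (2 * n) * ((2 * n : ℕ) : ℝ) ^ a)) atTop (𝓝 A) :=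
    h1.congr fun k => by rw [div_div]
  have h3 := ((h1'.mono_left (inf_le_left : atTop ⊓ 𝓟 S ≤ atTop)).mul_const (2 ^ a)).div h hB.ne'
  rw [show A * 2 ^ a / (2 ^ a / A) = A ^ 2 by field_simp] at h3
  have h4 : Tendsto (fun n : ℕ => √((c n / (μ ^ n * (n : ℝ) ^ a)) ^ 2)) (atTop ⊓ 𝓟 S)
      (𝓝 (√(A ^ 2))) := by
    refine (Real.continuous_sqrt.tendsto _).comp (h3.congr' ?_)
    have : ∀ᶠ n : ℕ in atTop ⊓ 𝓟 S, 1 ≤ n := (eventually_ge_atTop 1).filter_mono inf_le_left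
    filter_upwards [this] with n hn
    exact (sq_id W hn).symm
  rw [Real.sqrt_sq hA.le] at h4
  have h5 : Tendsto (fun n : ℕ => c n / (μ ^ n * (n : ℝ) ^ a)) (atTop ⊓ 𝓟 S) (𝓝 A) := by
    refine h4.congr' ?_
    have : ∀ᶠ n : ℕ in atTop ⊓ 𝓟 S, 1 ≤ n := (eventually_ge_atTop 1).filter_mono inf_le_left
    filter_upwards [this] with n hn
    have hn0 : (0 : ℝ) < n := by exact_mod_cast hn
    have := W.cpos n
    have := pow_pos W.hμ n
    have := Real.rpow_pos_of_pos hn0 a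
    rw [Real.sqrt_sq (by positivity)]
  exact W.form S hS A a hA h5

/-- equivalent power laws -/
theorem law_iff (W : Wk c μ) {a A : ℝ} (hA : 0 < A) :
    (Tendsto (fun n : ℕ => c n / (μ ^ n * (n : ℝ) ^ a)) atTop (𝓝 A) ↔
      Tendsto (fun n : ℕ => c (2 * n) / c n ^ 2 * (n : ℝ) ^ a) atTop (𝓝 (2 ^ a / A))) ∧
    (Tendsto (fun n : ℕ => c n / (μ ^ n * (n : ℝ) ^ a)) atTop (𝓝 A) ↔
      ∃ S : Set ℕ, Gaps2 S ∧ Tendsto (fun n : ℕ => c (2 * n) / c n ^ 2 * (n : ℝ) ^ a)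
        (atTop ⊓ 𝓟 S) (𝓝 (2 ^ a / A))) := by
  have key : Tendsto (fun n : ℕ => c (2 * n) / c n ^ 2 * (n : ℝ) ^ a) atTop (𝓝 (2 ^ a / A)) →
      ∃ S : Set ℕ, Gaps2 S ∧ Tendsto (fun n : ℕ => c (2 * n) / c n ^ 2 * (n : ℝ) ^ a)
        (atTop ⊓ 𝓟 S) (𝓝 (2 ^ a / A)) := fun h => ⟨Set.univ, gaps2_univ, by
    rwa [principal_univ, inf_top_eq]⟩
  refine ⟨⟨to_P W hA, fun h => ?_⟩, ⟨fun h => key (to_P W hA h), fun ⟨S, hS, h⟩ => of_P W hA hS h⟩⟩
  obtain ⟨S, hS, h'⟩ := key h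
  exact of_P W hA hS h'

/-- from exponents of walks to exponents of the non-intersection probability -/
lemma expo_P (W : Wk c μ) {a : ℝ}
    (h1 : Tendsto (fun n : ℕ => Real.log (c n / μ ^ n) / Real.log n) atTop (𝓝 a)) :
    Tendsto (fun n : ℕ => Real.log (c (2 * n) / c n ^ 2) / Real.log n) atTop (𝓝 (-a)) := by
  have h4 : Tendsto (fun n : ℕ => Real.log ((2 * n : ℕ) : ℝ) / Real.log (n : ℝ)) atTop (𝓝 1) := by
    simpa using Pool.Agent.R956.K3.log_two_tend 0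
  have h5 := ((even_tend h1).mul h4).sub (h1.const_mul 2)
  rw [show a * 1 - 2 * a = -a by ring] at h5
  refine h5.congr' ?_
  filter_upwards [eventually_ge_atTop 3] with n hn
  have hl := Pool.Agent.R956.K1.log_scale hn
  have hl2 : 1 ≤ Real.log ((2 * n : ℕ) : ℝ) :=
    Pool.Agent.R956.K1.log_scale (show 3 ≤ 2 * n by omega)
  rw [Pool.Agent.R956.K8.log_P W n]
  field_simp
  ring

theorem expo_iff (W : Wk c μ) {a : ℝ} {S : Set ℕ} (hS : LogGaps S) :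
    Tendsto (fun n : ℕ => Real.log (c n / μ ^ n) / Real.log n) atTop (𝓝 a) ↔
      Tendsto (fun n : ℕ => Real.log (c (2 * n) / c n ^ 2) / Real.log n) (atTop ⊓ 𝓟 S)
        (𝓝 (-a)) :=
  ⟨fun h => (expo_P W h).mono_left inf_le_left, fun h => Pool.Agent.R956.K11.expo W hS h⟩

end Pool.Agent.Zk87.SW
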