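import Pool.Agent.Zk87.SW.Osc

/-!
The rate `n^(-1/3) exp (K (log log n)²)`.
-/

set_option autoImplicit false
set_option linter.unusedVariables false

namespace Pool.Agent.Zk87.SW

open Filter Topology
open Pool.Agent.R79.SW

/-- `n^(-1/3) exp (K (log log n)²)` -/
noncomputable def rho (K : ℝ) (n : ℕ) : ℝ :=
  (n : ℝ) ^ (-(1 / 3) : ℝ) * Real.exp (K * Real.log (Real.log n) ^ 2)

lemma rho_nonneg (K : ℝ) (n : ℕ) : 0 ≤ rho K n :=
  mul_nonneg (Real.rpow_nonneg (Nat.cast_nonneg n) _) (Real.exp_pos _).le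

lemma rho_eq {K : ℝ} {n : ℕ} (hn : 1 ≤ n) :
    rho K n = Real.exp (-(1 / 3) * Real.log n + K * Real.log (Real.log n) ^ 2) := by
  have hn0 : (0 : ℝ) < n := by exact_mod_cast hn
  unfold rho
  rw [Real.rpow_def_of_pos hn0, ← Real.exp_add]
  congr 1
  ring

lemma rho_mono {K K' : ℝ} (h : K ≤ K') (n : ℕ) : rho K n ≤ rho K' n := by
  unfold rho
  refine mul_le_mul_of_nonneg_left ?_ (Real.rpow_nonneg (Nat.cast_nonneg n) _)
  exact Real.exp_le_exp.2 (mul_le_mul_of_nonneg_right h (sq_nonneg _))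

lemma inv_le_rho {K : ℝ} (hK : 0 ≤ K) {n : ℕ} (hn : 1 ≤ n) : 1 / (n : ℝ) ≤ rho K n := by
  have hn1 : (1 : ℝ) ≤ n := by exact_mod_cast hn
  have hn0 : (0 : ℝ) < n := by linarith
  rw [rho_eq hn, show 1 / (n : ℝ) = Real.exp (-Real.log n) by
    rw [Real.exp_neg, Real.exp_log hn0, one_div]]
  refine Real.exp_le_exp.2 ?_
  have h1 := Real.log_nonneg hn1
  have h2 : 0 ≤ K * Real.log (Real.log n) ^ 2 := by positivity
  linarith

lemma loglog_small (K ε : ℝ) (hε : 0 < ε) : ∀ᶠ n : ℕ in atTop,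
    K * Real.log (Real.log n) ^ 2 ≤ ε * Real.log n := by
  have h1 : (fun x : ℝ => Real.log x ^ 2) =o[atTop] (fun x : ℝ => x) :=
    Real.isLittleO_pow_log_id_atTop
  have hK : 0 < |K| + 1 := by positivity
  have h2 := h1.def (show 0 < ε / (|K| + 1) by positivity)
  have h3 := (Real.tendsto_log_atTop.comp tendsto_natCast_atTop_atTop).eventually h2
  have h4 : ∀ᶠ n : ℕ in atTop, 0 ≤ Real.log (n : ℝ) :=
    Eventually.of_forall fun n => Real.log_natCast_nonneg n
  filter_upwards [h3, h4] with n h5 h6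
  simp only [Function.comp_apply, norm_pow, Real.norm_eq_abs, sq_abs, abs_of_nonneg h6] at h5
  have h7 : K * Real.log (Real.log n) ^ 2 ≤ (|K| + 1) * Real.log (Real.log n) ^ 2 :=
    mul_le_mul_of_nonneg_right (by linarith [le_abs_self K]) (sq_nonneg _)
  refine h7.trans ((mul_le_mul_of_nonneg_left h5 hK.le).trans (le_of_eq ?_))
  field_simp

lemma rho_tendsto (K : ℝ) : Tendsto (rho K) atTop (𝓝 0) := by
  have h1 : Tendsto (fun n : ℕ => (n : ℝ) ^ (-(1 / 6) : ℝ)) atTop (𝓝 0) :=
    (tendsto_rpow_neg_atTop (by norm_num)).comp tendsto_natCast_atTop_atTop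
  refine squeeze_zero' (Eventually.of_forall (rho_nonneg K)) ?_ h1
  filter_upwards [loglog_small K (1 / 6) (by norm_num), eventually_ge_atTop 1] with n h2 hn
  have hn0 : (0 : ℝ) < n := by exact_mod_cast hn
  rw [rho_eq hn, Real.rpow_def_of_pos hn0]
  refine Real.exp_le_exp.2 ?_
  linarith

lemma rho_anti {K : ℝ} (hK : 0 ≤ K) : Anti (rho K) := by
  have hL : Tendsto (fun n : ℕ => Real.log (n : ℝ)) atTop atTop :=
    Real.tendsto_log_atTop.comp tendsto_natCast_atTop_atTop
  have h1 : (fun x : ℝ => Real.log x) =o[atTop] (fun x : ℝ => x) := Real.isLittleO_log_id_atTop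
  have h2 := h1.def (show 0 < 1 / (12 * (K + 1)) by positivity)
  have h3 := hL.eventually h2
  have h4 := hL.eventually_ge_atTop (12 * (K + 1) + 2)
  filter_upwards [h3, h4, eventually_ge_atTop 1] with n h5 h6 hn
  intro m hm hm3
  have hn0 : (0 : ℝ) < n := by exact_mod_cast hn
  have hm0 : (0 : ℝ) < m := lt_of_lt_of_le hn0 (by exact_mod_cast hm)
  obtain ⟨t, ht⟩ : ∃ t, t = Real.log (n : ℝ) := ⟨_, rfl⟩
  obtain ⟨s, hs⟩ : ∃ s, s = Real.log (m : ℝ) := ⟨_, rfl⟩
  have ht2 : 12 * (K + 1) + 2 ≤ t := by rw [ht]; exact h6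
  have ht0 : 0 < t := by linarith
  have hst : t ≤ s := by
    rw [ht, hs]
    exact Real.log_le_log hn0 (by exact_mod_cast hm)
  have hs2 : s ≤ 2 * t := by
    have a1 : s ≤ Real.log (3 * n) := by
      rw [hs]
      exact Real.log_le_log hm0 (by exact_mod_cast hm3)
    rw [Real.log_mul (by norm_num) hn0.ne', ← ht] at a1
    have a2 : Real.log 3 ≤ 2 := by
      have := Real.log_le_sub_one_of_pos (show (0 : ℝ) < 3 by norm_num)
      linarith
    linarith
  have hs0 : 0 < s := by linarith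
  rw [rho_eq (by omega), rho_eq hn, ← ht, ← hs]
  refine Real.exp_le_exp.2 ?_
  have b1 : Real.log s - Real.log t ≤ (s - t) / t := by
    rw [← Real.log_div hs0.ne' ht0.ne']
    refine (Real.log_le_sub_one_of_pos (by positivity)).trans (le_of_eq ?_)
    field_simp
  have b0 : 0 ≤ Real.log s - Real.log t := by
    have := Real.log_le_log ht0 hst
    linarith
  have b2 : 0 ≤ Real.log t := Real.log_nonneg (by linarith)
  have b3 : Real.log t ≤ t / (12 * (K + 1)) := by
    simp only [Real.norm_eq_abs] at h5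
    rw [← ht] at h5
    rw [abs_of_nonneg b2, abs_of_nonneg ht0.le] at h5
    refine h5.trans (le_of_eq ?_)
    ring
  have b4 : Real.log s ≤ 1 + Real.log t := by
    have : (s - t) / t ≤ 1 := by
      rw [div_le_one ht0]
      linarith
    linarith
  have b5 : Real.log s + Real.log t ≤ t / (3 * (K + 1)) := by
    have c1 : 1 ≤ t / (12 * (K + 1)) := by
      rw [one_le_div (by positivity)]
      linarith
    have c2 : t / (3 * (K + 1)) = 4 * (t / (12 * (K + 1))) := by
      field_simp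
      norm_num
    rw [c2]
    linarith
  have b6 : Real.log s ^ 2 - Real.log t ^ 2 ≤ (s - t) / (3 * (K + 1)) := by
    calc Real.log s ^ 2 - Real.log t ^ 2
        = (Real.log s - Real.log t) * (Real.log s + Real.log t) := by ring
      _ ≤ (s - t) / t * (t / (3 * (K + 1))) := by
          refine mul_le_mul b1 b5 (by linarith) ?_
          exact div_nonneg (by linarith) ht0.le
      _ = (s - t) / (3 * (K + 1)) := by
          field_simp
  have b7 : K * (Real.log s ^ 2 - Real.log t ^ 2) ≤ (s - t) / 3 := by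
    refine (mul_le_mul_of_nonneg_left b6 hK).trans ?_
    rw [← mul_div_assoc, div_le_div_iff₀ (by positivity) (by norm_num)]
    nlinarith
  linarith

/-- the hypotheses on the sequence -/
structure Sm (u : ℕ → ℝ) (K C B₀ : ℝ) : Prop where
  pos : ∀ n, 0 < u n
  hK : 0 ≤ K
  hC : 0 ≤ C
  hB : 0 ≤ B₀
  two : ∀ᶠ n in atTop, |Real.log (u (n + 2)) - Real.log (u n)| ≤ C * rho K n
  one : ∀ᶠ n in atTop, |Real.log (u (n + 1)) - Real.log (u n)| ≤ B₀

variable {u : ℕ → ℝ} {K C B₀ : ℝ}

lemma Sm.slow (H : Sm u K C B₀) : Slow u (fun n => 2 * C * rho K n) (Real.exp B₀) where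
  pos := H.pos
  hM := Real.one_le_exp H.hB
  rate := by
    have hC := H.hC
    have h1 : ∀ᶠ n in atTop, C * rho K n ≤ 1 := by
      have := (rho_tendsto K).const_mul C
      rw [mul_zero] at this
      exact this.eventually_le_const one_pos
    filter_upwards [H.two, h1] with n h2 h3
    have e : u (n + 2) / u n = Real.exp (Real.log (u (n + 2)) - Real.log (u n)) := by
      rw [Real.exp_sub, Real.exp_log (H.pos _), Real.exp_log (H.pos _)]
    rw [e]
    have h4 := exp_sub_one (h2.trans h3)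
    linarith
  lim := by
    have := (rho_tendsto K).const_mul (2 * C)
    rwa [mul_zero] at this
  one := by
    filter_upwards [H.one] with n hn
    obtain ⟨h1, h2⟩ := abs_le.1 hn
    constructor
    · rw [← Real.exp_log (H.pos (n + 1)), ← Real.exp_log (H.pos n), ← Real.exp_add]
      exact Real.exp_le_exp.2 (by linarith)
    · rw [← Real.exp_log (H.pos (n + 1)), ← Real.exp_log (H.pos n), ← Real.exp_add]
      exact Real.exp_le_exp.2 (by linarith)

lemma Sm.anti (H : Sm u K C B₀) : Anti (fun n => 2 * C * rho K n) := by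
  filter_upwards [rho_anti H.hK] with n hn
  intro m hm hm3
  exact mul_le_mul_of_nonneg_left (hn m hm hm3) (by linarith [H.hC])

/-- the power law in windows -/
def Law (x : ℕ → ℝ) (K a B : ℝ) (p : ℕ) : Prop :=
  ∃ᶠ n : ℕ in atTop, n % 2 = p ∧ ∀ j : ℕ, K * (1 + |a|) * (1 + j) * rho K n ≤ 1 →
    |x (n + 2 * j) / ((n + 2 * j : ℕ) : ℝ) ^ a - B| ≤ K * (1 + |a|) * (1 + j) * rho K n * B

lemma Sm.law (H : Sm u K C B₀) {K' a B : ℝ} (hK' : K ≤ K') (hC' : 16 * C + 8 ≤ K') (hB : 0 < B)
    {p : ℕ} (h : ∃ᶠ n : ℕ in atTop, n % 2 = p ∧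
      |u n / (n : ℝ) ^ a - B| ≤ B * (2 * (2 * C * rho K n) + 2 * |a| / n)) : Law u K' a B p := by
  have hC := H.hC
  refine ((window H.slow H.anti hB h).and_eventually (eventually_ge_atTop 1)).mono ?_
  rintro n ⟨⟨h1, h2⟩, hn⟩
  refine ⟨h1, fun j hj => ?_⟩
  have hn0 : (0 : ℝ) < n := by exact_mod_cast hn
  have hj0 : (0 : ℝ) ≤ j := Nat.cast_nonneg j
  have ha : 0 ≤ |a| := abs_nonneg a
  have r0 := rho_nonneg K n
  have r1 := rho_mono hK' n
  have r2 := inv_le_rho H.hK hn
  have e1 : |a| / n = |a| * (1 / n) := by ring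
  have k1 : 2 * C * rho K n + |a| / n ≤ (2 * C + 1) * (1 + |a|) * rho K' n := by
    rw [e1]
    have := mul_le_mul_of_nonneg_left (r2.trans r1) ha
    have t1 : 2 * C * rho K n ≤ 2 * C * rho K' n := mul_le_mul_of_nonneg_left r1 (by linarith)
    have t2 : 0 ≤ C * |a| * rho K' n := by
      have : 0 ≤ rho K' n := r0.trans r1
      positivity
    have t3 : 0 ≤ rho K' n := r0.trans r1
    nlinarith
  have k2 : 8 * (1 + (j : ℝ)) * (2 * C * rho K n + |a| / n) ≤
      K' * (1 + |a|) * (1 + j) * rho K' n := by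
    have t3 : 0 ≤ rho K' n := r0.trans r1
    calc 8 * (1 + (j : ℝ)) * (2 * C * rho K n + |a| / n)
        ≤ 8 * (1 + (j : ℝ)) * ((2 * C + 1) * (1 + |a|) * rho K' n) :=
          mul_le_mul_of_nonneg_left k1 (by positivity)
      _ = (16 * C + 8) * ((1 + |a|) * (1 + j) * rho K' n) := by ring
      _ ≤ K' * ((1 + |a|) * (1 + j) * rho K' n) :=
          mul_le_mul_of_nonneg_right hC' (by positivity)
      _ = _ := by ring
  have k3 : (j : ℝ) ≤ n := by
    have t1 : 1 / (n : ℝ) * (1 + j) ≤ K' * (1 + |a|) * (1 + j) * rho K' n := by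
      have t2 : 1 / (n : ℝ) ≤ rho K' n := r2.trans r1
      have t3 : 1 ≤ K' * (1 + |a|) := by nlinarith
      have t4 : 0 ≤ rho K' n := r0.trans r1
      calc 1 / (n : ℝ) * (1 + j) ≤ rho K' n * (1 + j) :=
            mul_le_mul_of_nonneg_right t2 (by positivity)
        _ = 1 * (rho K' n * (1 + j)) := by ring
        _ ≤ K' * (1 + |a|) * (rho K' n * (1 + j)) := mul_le_mul_of_nonneg_right t3 (by positivity)
        _ = _ := by ring
    have t2 := t1.trans hj
    rw [one_div_mul_eq_div, div_le_one hn0] at t2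
    linarith
  have k4 := h2 j (by exact_mod_cast k3) (by linarith)
  exact k4.trans (mul_le_mul_of_nonneg_right k2 hB.le)

/-- the doubling ratios -/
lemma Sm.doub (H : Sm u K C B₀) {P : ℕ → ℝ} (hP : ∀ n, P n = u (2 * n) / u n ^ 2) :
    Sm P K (4 * C) (1 + 2 * B₀) where
  pos n := by
    rw [hP]
    have := H.pos (2 * n)
    have := H.pos n
    positivity
  hK := H.hK
  hC := by linarith [H.hC]
  hB := by linarith [H.hB]
  two := by
    have hC := H.hC
    have ht : Tendsto (fun n : ℕ => 2 * n) atTop atTop := tendsto_id.const_mul_atTop' (by norm_num)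
    have ht2 : Tendsto (fun n : ℕ => 2 * n + 2) atTop atTop :=
      tendsto_atTop_mono (fun n => by simp only [id]; omega) tendsto_id
    filter_upwards [H.two, ht.eventually H.two, ht2.eventually H.two, rho_anti H.hK,
      eventually_ge_atTop 2] with n h1 h2 h3 h4 h5
    have h6 := mul_le_mul_of_nonneg_left (h4 (2 * n) (by omega) (by omega)) hC
    have h7 := mul_le_mul_of_nonneg_left (h4 (2 * n + 2) (by omega) (by omega)) hC
    have e : ∀ m, Real.log (P m) = Real.log (u (2 * m)) - 2 * Real.log (u m) := fun m => by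
      rw [hP, Real.log_div (H.pos _).ne' (pow_pos (H.pos _) 2).ne', Real.log_pow]
      push_cast
      ring
    rw [e, e, show 2 * (n + 2) = 2 * n + 2 + 2 by ring]
    rw [abs_le] at *
    constructor <;> linarith [h1.1, h1.2, h2.1, h2.2, h3.1, h3.2]
  one := by
    have hC := H.hC
    have ht : Tendsto (fun n : ℕ => 2 * n) atTop atTop := tendsto_id.const_mul_atTop' (by norm_num)
    have h0 : ∀ᶠ n in atTop, C * rho K n ≤ 1 := by
      have := (rho_tendsto K).const_mul C
      rw [mul_zero] at this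
      exact this.eventually_le_const one_pos
    filter_upwards [H.one, ht.eventually H.two, ht.eventually h0] with n h1 h2 h3
    have e : ∀ m, Real.log (P m) = Real.log (u (2 * m)) - 2 * Real.log (u m) := fun m => by
      rw [hP, Real.log_div (H.pos _).ne' (pow_pos (H.pos _) 2).ne', Real.log_pow]
      push_cast
      ring
    rw [e, e, show 2 * (n + 1) = 2 * n + 2 by ring]
    rw [abs_le] at *
    constructor <;> linarith [h1.1, h1.2, h2.1, h2.2]

end Pool.Agent.Zk87.SW
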