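import Mathlib

/-!
Functions on `(0, ∞)` whose differences of order `r` with step `2` are `O(x^(b - r))`; finite sums of
powers.
-/

set_option autoImplicit false
set_option linter.unusedVariables false

namespace Pool.Agent.Zk87.SW

open Filter Topology

/-- smooth, with all derivatives of order `i` of size `x^(b - i)` -/
def Sf (b : ℝ) (F : ℝ → ℝ) : Prop := ∃ G : ℕ → ℝ → ℝ, G 0 = F ∧
  (∀ i x, 0 < x → HasDerivAt (G i) (G (i + 1) x) x) ∧
  ∀ i : ℕ, ∃ C : ℝ, 0 ≤ C ∧ ∀ x, 1 ≤ x → |G i x| ≤ C * x ^ (b - i)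

/-- the same for the derivatives of order `≥ 1` -/
def Sy (b : ℝ) (F : ℝ → ℝ) : Prop := ∃ F' : ℝ → ℝ, (∀ x, 0 < x → HasDerivAt F (F' x) x) ∧
  Sf (b - 1) F'

/-- difference with step `2` -/
def DD (F : ℝ → ℝ) : ℝ → ℝ := fun x => F (x + 2) - F x

lemma dd_deriv {F F' : ℝ → ℝ} (h : ∀ x, 0 < x → HasDerivAt F (F' x) x) {x : ℝ} (hx : 0 < x) :
    HasDerivAt (DD F) (DD F' x) x := by
  unfold DD
  have h1 := (h (x + 2) (by linarith)).comp_add_const x 2
  exact h1.sub (h x hx)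

lemma dd_bound {F F' : ℝ → ℝ} (h : ∀ x, 0 < x → HasDerivAt F (F' x) x) {b C : ℝ} (hC : 0 ≤ C)
    (hb : ∀ x, 1 ≤ x → |F' x| ≤ C * x ^ b) {x : ℝ} (hx : 1 ≤ x) :
    |DD F x| ≤ 2 * C * 3 ^ |b| * x ^ b := by
  have hx0 : 0 < x := by linarith
  have h1 : ∀ y ∈ Set.Icc x (x + 2), |F' y| ≤ C * 3 ^ |b| * x ^ b := by
    intro y hy
    have hy1 : 1 ≤ y := hx.trans hy.1
    have hy0 : 0 < y := by linarith
    refine (hb y hy1).trans ?_
    have h2 : y ^ b ≤ 3 ^ |b| * x ^ b := by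
      have h3 : y = (y / x) * x := by field_simp
      have h4 : 1 ≤ y / x := by rw [one_le_div hx0]; exact hy.1
      have h5 : y / x ≤ 3 := by rw [div_le_iff₀ hx0]; linarith [hy.2]
      rw [h3, Real.mul_rpow (by positivity) hx0.le]
      refine mul_le_mul_of_nonneg_right ?_ (Real.rpow_nonneg hx0.le b)
      exact (Real.rpow_le_rpow_of_exponent_le h4 (le_abs_self b)).trans
        (Real.rpow_le_rpow (by linarith) h5 (abs_nonneg b))
    rw [mul_assoc]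
    exact mul_le_mul_of_nonneg_left h2 hC
  have h2 := (convex_Icc x (x + 2)).norm_image_sub_le_of_norm_hasDerivWithin_le
    (f := F) (f' := F') (C := C * 3 ^ |b| * x ^ b)
    (fun y hy => (h y (by linarith [hy.1])).hasDerivWithinAt) (fun y hy => h1 y hy)
    (Set.left_mem_Icc.2 (by linarith)) (Set.right_mem_Icc.2 (by linarith))
  rw [Real.norm_eq_abs, Real.norm_eq_abs, add_sub_cancel_left, abs_of_pos (by norm_num :
    (0 : ℝ) < 2)] at h2
  unfold DD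
  linarith

lemma sf_dd {b : ℝ} {F : ℝ → ℝ} (h : Sy b F) : Sf (b - 1) (DD F) := by
  obtain ⟨F', h1, G, hG0, hG1, hG2⟩ := h
  refine ⟨fun i => match i with
    | 0 => DD F
    | i + 1 => DD (G i), rfl, ?_, ?_⟩
  · intro i x hx
    cases i with
    | zero =>
      show HasDerivAt (DD F) (DD (G 0) x) x
      rw [hG0]
      exact dd_deriv h1 hx
    | succ i =>
      show HasDerivAt (DD (G i)) (DD (G (i + 1)) x) x
      exact dd_deriv (hG1 i) hx
  · intro i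
    cases i with
    | zero =>
      obtain ⟨C, hC, hb⟩ := hG2 0
      refine ⟨2 * C * 3 ^ |b - 1|, by positivity, fun x hx => ?_⟩
      rw [hG0] at hb
      simp only [Nat.cast_zero, sub_zero] at hb ⊢
      exact dd_bound h1 hC hb hx
    | succ i =>
      obtain ⟨C, hC, hb⟩ := hG2 (i + 1)
      exact ⟨2 * C * 3 ^ |b - 1 - ((i + 1 : ℕ) : ℝ)|, by positivity, fun x hx =>
        dd_bound (hG1 i) hC hb hx⟩

lemma Sf.sy {b : ℝ} {F : ℝ → ℝ} (h : Sf b F) : Sy b F := by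
  obtain ⟨G, hG0, hG1, hG2⟩ := h
  refine ⟨G 1, fun x hx => by rw [← hG0]; exact hG1 0 x hx, fun i => G (i + 1), rfl,
    fun i x hx => hG1 (i + 1) x hx, fun i => ?_⟩
  obtain ⟨C, hC, hb⟩ := hG2 (i + 1)
  refine ⟨C, hC, fun x hx => ?_⟩
  have := hb x hx
  push_cast at this
  rwa [show b - 1 - (i : ℝ) = b - (i + 1) by ring]

lemma sf_iter {b : ℝ} {F : ℝ → ℝ} (h : Sy b F) (r : ℕ) :
    Sf (b - ((r + 1 : ℕ) : ℝ)) (DD^[r + 1] F) := by
  induction r with
  | zero =>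
    have := sf_dd h
    simpa using this
  | succ r ih =>
    rw [Function.iterate_succ_apply']
    have := sf_dd ih.sy
    have e : b - ((r + 1 : ℕ) : ℝ) - 1 = b - ((r + 1 + 1 : ℕ) : ℝ) := by push_cast; ring
    rwa [e] at this

/-- the differences of order `r ≥ 1` -/
theorem Sy.diff {b : ℝ} {F : ℝ → ℝ} (h : Sy b F) {r : ℕ} (hr : 1 ≤ r) :
    ∃ C : ℝ, 0 ≤ C ∧ ∀ x, 1 ≤ x → |(DD^[r] F) x| ≤ C * x ^ (b - r) := by
  obtain ⟨r, rfl⟩ : ∃ r', r = r' + 1 := ⟨r - 1, by omega⟩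
  obtain ⟨G, hG0, -, hG2⟩ := sf_iter h r
  obtain ⟨C, hC, hb⟩ := hG2 0
  refine ⟨C, hC, fun x hx => ?_⟩
  have := hb x hx
  rw [hG0] at this
  simpa using this

lemma Sf.add {b : ℝ} {F H : ℝ → ℝ} (h1 : Sf b F) (h2 : Sf b H) : Sf b (fun x => F x + H x) := by
  obtain ⟨G1, a1, a2, a3⟩ := h1
  obtain ⟨G2, b1, b2, b3⟩ := h2
  refine ⟨fun i x => G1 i x + G2 i x, by simp only [a1, b1],
    fun i x hx => (a2 i x hx).add (b2 i x hx), fun i => ?_⟩
  obtain ⟨C1, hC1, c1⟩ := a3 i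
  obtain ⟨C2, hC2, c2⟩ := b3 i
  refine ⟨C1 + C2, by positivity, fun x hx => ?_⟩
  refine (abs_add_le _ _).trans ?_
  have := c1 x hx
  have := c2 x hx
  linarith [add_mul C1 C2 (x ^ (b - i))]

lemma Sf.smul {b : ℝ} {F : ℝ → ℝ} (h1 : Sf b F) (a : ℝ) : Sf b (fun x => a * F x) := by
  obtain ⟨G1, a1, a2, a3⟩ := h1
  refine ⟨fun i x => a * G1 i x, by simp only [a1],
    fun i x hx => (a2 i x hx).const_mul a, fun i => ?_⟩
  obtain ⟨C1, hC1, c1⟩ := a3 i
  refine ⟨|a| * C1, by positivity, fun x hx => ?_⟩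
  rw [abs_mul, mul_assoc]
  exact mul_le_mul_of_nonneg_left (c1 x hx) (abs_nonneg a)

lemma sf_pow {θ b : ℝ} (hb : θ ≤ b) : Sf b (fun x => x ^ θ) := by
  obtain ⟨c, hc⟩ : ∃ c : ℕ → ℝ, c = fun i => ∏ l ∈ Finset.range i, (θ - l) := ⟨_, rfl⟩
  refine ⟨fun i x => c i * x ^ (θ - i), by
    funext x
    simp only [hc, Finset.range_zero, Finset.prod_empty, Nat.cast_zero, sub_zero, one_mul], ?_, ?_⟩
  · intro i x hx
    have h1 := (Real.hasDerivAt_rpow_const (x := x) (p := θ - i) (Or.inl hx.ne')).const_mul (c i)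
    have e : c i * ((θ - i) * x ^ (θ - i - 1)) = c (i + 1) * x ^ (θ - ((i + 1 : ℕ) : ℝ)) := by
      rw [hc]
      simp only
      rw [Finset.prod_range_succ]
      push_cast
      rw [show θ - ((i : ℝ) + 1) = θ - i - 1 by ring]
      ring
    rw [e] at h1
    exact h1
  · intro i
    refine ⟨|c i|, abs_nonneg _, fun x hx => ?_⟩
    have hx0 : 0 < x := by linarith
    rw [abs_mul, abs_of_pos (Real.rpow_pos_of_pos hx0 _)]
    exact mul_le_mul_of_nonneg_left (Real.rpow_le_rpow_of_exponent_le hx (by linarith))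
      (abs_nonneg _)

lemma sf_zero {b : ℝ} : Sf b (fun _ => 0) :=
  ⟨fun _ _ => 0, rfl, fun i x _ => hasDerivAt_const x 0, fun i => ⟨0, le_rfl, fun x _ => by simp⟩⟩

lemma Sf.sum {b : ℝ} {ι : Type} (s : Finset ι) {F : ι → ℝ → ℝ} (h : ∀ i ∈ s, Sf b (F i)) :
    Sf b (fun x => ∑ i ∈ s, F i x) := by
  classical
  induction s using Finset.induction_on with
  | empty => simpa using sf_zero
  | insert a s ha ih =>
    have h1 := h a (Finset.mem_insert_self a s)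
    have h2 := ih fun i hi => h i (Finset.mem_insert_of_mem hi)
    have h3 := h1.add h2
    simpa only [Finset.sum_insert ha] using h3

/-- only the values on `(0, ∞)` matter -/
lemma Sf.congr {b : ℝ} {F H : ℝ → ℝ} (h : Sf b F) (e : ∀ x, 0 < x → H x = F x) : Sf b H := by
  obtain ⟨G, hG0, hG1, hG2⟩ := h
  refine ⟨fun i => match i with
    | 0 => H
    | i + 1 => G (i + 1), rfl, ?_, ?_⟩
  · intro i x hx
    cases i with
    | zero =>
      show HasDerivAt H (G 1 x) x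
      have h1 := hG1 0 x hx
      rw [hG0] at h1
      refine h1.congr_of_eventuallyEq ?_
      filter_upwards [lt_mem_nhds hx] with y hy
      exact e y hy
    | succ i => exact hG1 (i + 1) x hx
  · intro i
    cases i with
    | zero =>
      obtain ⟨C, hC, hb⟩ := hG2 0
      refine ⟨C, hC, fun x hx => ?_⟩
      show |H x| ≤ _
      rw [e x (by linarith), ← hG0]
      exact hb x hx
    | succ i => exact hG2 (i + 1)

lemma Sy.add {b : ℝ} {F H : ℝ → ℝ} (h1 : Sy b F) (h2 : Sy b H) : Sy b (fun x => F x + H x) := by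
  obtain ⟨F', a1, a2⟩ := h1
  obtain ⟨H', b1, b2⟩ := h2
  exact ⟨fun x => F' x + H' x, fun x hx => (a1 x hx).add (b1 x hx), a2.add b2⟩

lemma sy_log : Sy 0 Real.log := by
  refine ⟨fun x => x⁻¹, fun x hx => Real.hasDerivAt_log hx.ne', ?_⟩
  refine (sf_pow (θ := -1) (b := 0 - 1) (by norm_num)).congr fun x hx => ?_
  rw [Real.rpow_neg_one]

lemma sy_const (a : ℝ) : Sy 0 (fun _ => a) :=
  ⟨fun _ => 0, fun x _ => hasDerivAt_const x a, sf_zero⟩

lemma Sy.smul {b : ℝ} {F : ℝ → ℝ} (h1 : Sy b F) (a : ℝ) : Sy b (fun x => a * F x) := by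
  obtain ⟨F', a1, a2⟩ := h1
  exact ⟨fun x => a * F' x, fun x hx => (a1 x hx).const_mul a, a2.smul a⟩

/-! ### Finite sums of negative powers -/

/-- finite sums of negative powers -/
def Pw (F : ℝ → ℝ) : Prop := ∃ (ι : Type) (_ : Fintype ι) (b θ : ι → ℝ), (∀ i, 0 < θ i) ∧
  ∀ x, 0 < x → F x = ∑ i, b i * x ^ (-θ i)

lemma Pw.add {F H : ℝ → ℝ} (h1 : Pw F) (h2 : Pw H) : Pw (fun x => F x + H x) := by
  obtain ⟨ι, _, b, θ, h3, h4⟩ := h1
  obtain ⟨κ, _, c, η, h5, h6⟩ := h2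
  refine ⟨ι ⊕ κ, inferInstance, Sum.elim b c, Sum.elim θ η, ?_, fun x hx => ?_⟩
  · rintro (i | i)
    · exact h3 i
    · exact h5 i
  · show F x + H x = _
    rw [Fintype.sum_sum_type, h4 x hx, h6 x hx]
    rfl

lemma Pw.smul {F : ℝ → ℝ} (h1 : Pw F) (a : ℝ) : Pw (fun x => a * F x) := by
  obtain ⟨ι, _, b, θ, h3, h4⟩ := h1
  refine ⟨ι, inferInstance, fun i => a * b i, θ, h3, fun x hx => ?_⟩
  simp only
  rw [h4 x hx, Finset.mul_sum]
  exact Finset.sum_congr rfl fun i _ => by ring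

lemma Pw.mul {F H : ℝ → ℝ} (h1 : Pw F) (h2 : Pw H) : Pw (fun x => F x * H x) := by
  obtain ⟨ι, _, b, θ, h3, h4⟩ := h1
  obtain ⟨κ, _, c, η, h5, h6⟩ := h2
  refine ⟨ι × κ, inferInstance, fun i => b i.1 * c i.2, fun i => θ i.1 + η i.2,
    fun i => add_pos (h3 i.1) (h5 i.2), fun x hx => ?_⟩
  simp only
  rw [h4 x hx, h6 x hx, Finset.sum_mul_sum, Fintype.sum_prod_type]
  refine Finset.sum_congr rfl fun i _ => Finset.sum_congr rfl fun j _ => ?_
  rw [show -(θ i + η j) = -θ i + -η j by ring, Real.rpow_add hx]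
  ring

lemma Pw.pow {F : ℝ → ℝ} (h1 : Pw F) (m : ℕ) : Pw (fun x => F x ^ (m + 1)) := by
  induction m with
  | zero => simpa using h1
  | succ m ih =>
    have := ih.mul h1
    simpa only [← pow_succ] using this

lemma pw_zero : Pw (fun _ => 0) :=
  ⟨Empty, inferInstance, Empty.elim, Empty.elim, fun i => i.elim, fun x _ => by simp⟩

lemma Pw.sum {F : ℕ → ℝ → ℝ} (h : ∀ i, Pw (F i)) (m : ℕ) :
    Pw (fun x => ∑ i ∈ Finset.range m, F i x) := by
  induction m with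
  | zero => simpa using pw_zero
  | succ m ih =>
    have := ih.add (h m)
    simpa only [Finset.sum_range_succ] using this

lemma Pw.sf {F : ℝ → ℝ} (h : Pw F) : Sf 0 F := by
  obtain ⟨ι, _, b, θ, h3, h4⟩ := h
  refine Sf.congr (F := fun x => ∑ i, b i * x ^ (-θ i)) (Sf.sum _ fun i _ => ?_) h4
  exact (sf_pow (by have := h3 i; linarith)).smul (b i)

lemma Pw.decay {F : ℝ → ℝ} (h : Pw F) : ∃ C θ : ℝ, 0 ≤ C ∧ 0 < θ ∧ ∀ x, 1 ≤ x →
    |F x| ≤ C * x ^ (-θ) := by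
  obtain ⟨ι, _, b, θ, h3, h4⟩ := h
  obtain ⟨η, hη, hη'⟩ : ∃ η : ℝ, 0 < η ∧ ∀ i, η ≤ θ i := by
    rcases isEmpty_or_nonempty ι with hι | hι
    · exact ⟨1, one_pos, fun i => (hι.false i).elim⟩
    · obtain ⟨i, hi⟩ := Finite.exists_min θ
      exact ⟨θ i, h3 i, hi⟩
  refine ⟨∑ i, |b i|, η, by positivity, hη, fun x hx => ?_⟩
  have hx0 : 0 < x := by linarith
  rw [h4 x hx0, Finset.sum_mul]
  refine (Finset.abs_sum_le_sum_abs _ _).trans (Finset.sum_le_sum fun i _ => ?_)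
  rw [abs_mul, abs_of_pos (Real.rpow_pos_of_pos hx0 _)]
  exact mul_le_mul_of_nonneg_left (Real.rpow_le_rpow_of_exponent_le hx (by linarith [hη' i]))
    (abs_nonneg _)

end Pool.Agent.Zk87.SW
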