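import Pool.Agent.Zk87.SW.Newt
import Pool.Agent.Zk87.SW.Symb
import Pool.Agent.Zk87.SW.Rate

/-!
Asymptotic expansions at sparse lengths hold at all lengths.
-/

set_option autoImplicit false
set_option linter.unusedVariables false

namespace Pool.Agent.Zk87.SW

open Filter Topology Finset

lemma D_iter_sub (a b : ℕ → ℝ) (r : ℕ) :
    D^[r] (fun k => a k - b k) = fun k => (D^[r] a) k - (D^[r] b) k := by
  induction r generalizing a b with
  | zero => rfl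
  | succ r ih =>
    rw [Function.iterate_succ_apply, Function.iterate_succ_apply, Function.iterate_succ_apply]
    have : D (fun k => a k - b k) = fun k => D a k - D b k := by
      funext k
      unfold D
      ring
    rw [this, ih]

lemma D_iter_DD (F : ℝ → ℝ) (s r k : ℕ) :
    (D^[r] (fun k : ℕ => F ((2 * k + s : ℕ) : ℝ))) k = (DD^[r] F) ((2 * k + s : ℕ) : ℝ) := by
  induction r generalizing F with
  | zero => rfl
  | succ r ih =>
    rw [Function.iterate_succ_apply, Function.iterate_succ_apply, ← ih (DD F)]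
    have e : D (fun k : ℕ => F ((2 * k + s : ℕ) : ℝ)) = fun k : ℕ => DD F ((2 * k + s : ℕ) : ℝ) := by
      funext j
      unfold D DD
      push_cast
      ring_nf
    rw [e]

lemma D_iter_sum (L : ℕ → ℝ) (s r k : ℕ) :
    |(D^[r] (fun k : ℕ => L (2 * k + s))) k| =
      |∑ i ∈ range (r + 1), (-1 : ℝ) ^ i * (r.choose i : ℝ) * L (2 * k + s + 2 * i)| := by
  have h : D = fwdDiff (1 : ℕ) := rfl
  rw [h, fwdDiff_iter_eq_sum_shift]
  have e : ∑ i ∈ range (r + 1), ((-1 : ℤ) ^ (r - i) * (r.choose i : ℤ)) • L (2 * (k + i • 1) + s) =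
      (-1 : ℝ) ^ r * ∑ i ∈ range (r + 1), (-1 : ℝ) ^ i * (r.choose i : ℝ) * L (2 * k + s + 2 * i) := by
    rw [mul_sum]
    refine sum_congr rfl fun i hi => ?_
    have hi' : i ≤ r := Nat.lt_succ_iff.1 (mem_range.1 hi)
    have e1 : (-1 : ℝ) ^ (r - i) = (-1) ^ r * (-1) ^ i := by
      have : (-1 : ℝ) ^ r = (-1) ^ (r - i) * (-1) ^ i := by rw [← pow_add, Nat.sub_add_cancel hi']
      rw [this, mul_assoc, ← mul_pow]
      norm_num
    rw [zsmul_eq_mul, show 2 * (k + i • 1) + s = 2 * k + s + 2 * i by simp; ring]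
    push_cast
    rw [e1]
    ring
  rw [e, abs_mul, abs_pow, abs_neg, abs_one, one_pow, one_mul]

/-- all differences with step `2` are small -/
def Diffs (L : ℕ → ℝ) (K : ℝ) : Prop := ∀ r : ℕ, 1 ≤ r → ∃ C : ℝ, 0 < C ∧ ∀ n : ℕ, 3 ≤ n →
    |∑ i ∈ range (r + 1), (-1 : ℝ) ^ i * (r.choose i : ℝ) * L (n + 2 * i)| ≤ C * rho K n ^ r

/-- the gaps of `S` are at most `n^(1/3 - ε)`, in both parity classes -/
def Gap (S : Set ℕ) (ε : ℝ) : Prop := ∀ᶠ n : ℕ in atTop, ∃ m ∈ S, m % 2 = n % 2 ∧ n ≤ m ∧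
  (m : ℝ) ≤ n + (n : ℝ) ^ (1 / 3 - ε)

lemma diff_bound {L : ℕ → ℝ} {K : ℝ} (hK : 0 ≤ K) (hL : Diffs L K) {F : ℝ → ℝ} (hF : Sy 0 F)
    (s : ℕ) {r : ℕ} (hr : 1 ≤ r) : ∃ C : ℝ, 0 ≤ C ∧ ∀ k : ℕ, 3 ≤ 2 * k + s →
      |(D^[r] (fun k : ℕ => L (2 * k + s) - F ((2 * k + s : ℕ) : ℝ))) k| ≤
        C * rho K (2 * k + s) ^ r := by
  obtain ⟨C1, hC1, h1⟩ := hL r hr
  obtain ⟨C2, hC2, h2⟩ := hF.diff hr
  refine ⟨C1 + C2, by positivity, fun k hk => ?_⟩
  rw [D_iter_sub]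
  simp only
  refine (abs_sub _ _).trans ?_
  rw [D_iter_sum, D_iter_DD]
  have hn1 : (1 : ℝ) ≤ ((2 * k + s : ℕ) : ℝ) := by exact_mod_cast (by omega : 1 ≤ 2 * k + s)
  have hn0 : (0 : ℝ) < ((2 * k + s : ℕ) : ℝ) := by linarith
  have h3 := h1 (2 * k + s) hk
  have h4 := h2 _ hn1
  have h5 : ((2 * k + s : ℕ) : ℝ) ^ ((0 : ℝ) - r) ≤ rho K (2 * k + s) ^ r := by
    rw [zero_sub, Real.rpow_neg hn0.le, Real.rpow_natCast, ← inv_pow]
    refine pow_le_pow_left₀ (by positivity) ?_ r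
    have := inv_le_rho hK (show 1 ≤ 2 * k + s by omega)
    rwa [one_div] at this
  have h6 := mul_le_mul_of_nonneg_left h5 hC2
  linarith [add_mul C1 C2 (rho K (2 * k + s) ^ r)]

/-- one parity class -/
theorem transfer_one {L : ℕ → ℝ} {K : ℝ} (hK : 0 ≤ K) (hL : Diffs L K) {F : ℝ → ℝ} (hF : Sy 0 F)
    {S : Set ℕ} {ε R E : ℝ} (hε : 0 < ε) (hR : 0 ≤ R) (hS : Gap S ε) {s : ℕ} (hs : s ≤ 1)
    (h : ∀ᶠ n : ℕ in atTop, n % 2 = s → n ∈ S → |L n - F n| ≤ E * (n : ℝ) ^ (-R)) :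
    ∃ E' : ℝ, ∀ᶠ n : ℕ in atTop, n % 2 = s → |L n - F n| ≤ E' * (n : ℝ) ^ (-R) := by
  obtain ⟨δ, hδ⟩ : ∃ δ : ℝ, δ = min ε (1 / 3) := ⟨_, rfl⟩
  have hδ0 : 0 < δ := by rw [hδ]; exact lt_min hε (by norm_num)
  have hδε : δ ≤ ε := by rw [hδ]; exact min_le_left _ _
  have hδ3 : δ ≤ 1 / 3 := by rw [hδ]; exact min_le_right _ _
  obtain ⟨r, hrd⟩ : ∃ r : ℕ, r = ⌈2 * R / δ⌉₊ + 1 := ⟨_, rfl⟩
  have hr : 1 ≤ r := by omega
  have hr0 : (1 : ℝ) ≤ r := by exact_mod_cast hr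
  have hrR : R ≤ r * (δ / 2) := by
    have h1 : 2 * R / δ ≤ r := by
      rw [hrd]
      push_cast
      linarith [Nat.le_ceil (2 * R / δ)]
    rw [div_le_iff₀ hδ0] at h1
    linarith
  obtain ⟨C, hC, hdiff⟩ := diff_bound hK hL hF s hr
  obtain ⟨N1, hN1⟩ := eventually_atTop.1 hS
  obtain ⟨N2, hN2⟩ := eventually_atTop.1 h
  have hbig : ∀ᶠ n : ℕ in atTop, 16 * (r : ℝ) ≤ (n : ℝ) ^ (2 / 3 : ℝ) :=
    ((tendsto_rpow_atTop (by norm_num)).comp tendsto_natCast_atTop_atTop).eventually_ge_atTop _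
  refine ⟨r * (2 * r : ℝ) ^ r * (|E| + (8 * r : ℝ) ^ r * C), ?_⟩
  filter_upwards [rho_anti hK, loglog_small K (δ / 2) (by positivity), hbig,
    eventually_ge_atTop (N1 + N2 + 3)] with n g1 g2 g3 g4
  intro hn
  obtain ⟨k, hk⟩ : ∃ k, n = 2 * k + s := ⟨n / 2, by omega⟩
  have hn1 : (1 : ℝ) ≤ n := by exact_mod_cast (by omega : 1 ≤ n)
  have hn0 : (0 : ℝ) < n := by linarith
  obtain ⟨y, hy⟩ : ∃ y : ℝ, y = (n : ℝ) ^ (1 / 3 - δ) := ⟨_, rfl⟩
  have hy1 : 1 ≤ y := by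
    rw [hy]
    exact Real.one_le_rpow hn1 (by linarith)
  obtain ⟨L', hL'⟩ : ∃ L' : ℕ, L' = ⌈y⌉₊ := ⟨_, rfl⟩
  have hLy : y ≤ L' := by rw [hL']; exact Nat.le_ceil y
  have hL1 : 1 ≤ L' := by
    have : (1 : ℝ) ≤ L' := hy1.trans hLy
    exact_mod_cast this
  have hLy2 : (L' : ℝ) ≤ 2 * y := by
    have := Nat.ceil_lt_add_one (show 0 ≤ y by linarith)
    rw [← hL'] at this
    linarith
  have hyn : y ≤ (n : ℝ) ^ (1 / 3 : ℝ) := by
    rw [hy]
    exact Real.rpow_le_rpow_of_exponent_le hn1 (by linarith)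
  have h8 : 8 * r * L' ≤ n := by
    have e1 : (n : ℝ) ^ (2 / 3 : ℝ) * (n : ℝ) ^ (1 / 3 : ℝ) = n := by
      rw [← Real.rpow_add hn0]
      norm_num
    have e2 : 8 * (r : ℝ) * L' ≤ n := by
      calc 8 * (r : ℝ) * L' ≤ 8 * r * (2 * (n : ℝ) ^ (1 / 3 : ℝ)) :=
            mul_le_mul_of_nonneg_left (hLy2.trans (by linarith)) (by positivity)
        _ = 16 * r * (n : ℝ) ^ (1 / 3 : ℝ) := by ring
        _ ≤ (n : ℝ) ^ (2 / 3 : ℝ) * (n : ℝ) ^ (1 / 3 : ℝ) :=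
            mul_le_mul_of_nonneg_right g3 (by positivity)
        _ = n := e1
    exact_mod_cast e2
  -- the nodes
  have hnodes : ∀ i : ℕ, ∃ t : ℕ, i < r → (k + 4 * i * L' ≤ t ∧ t ≤ k + 4 * i * L' + 2 * L') ∧
      2 * t + s ∈ S := by
    intro i
    by_cases hi : i < r
    · obtain ⟨m, hm1, hm2, hm3, hm4⟩ := hN1 (2 * (k + 4 * i * L') + s) (by
        have : 2 * k + s ≤ 2 * (k + 4 * i * L') + s := by omega
        omega)
      have h9 : 2 * (k + 4 * i * L') + s ≤ 2 * n := by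
        have : 8 * i * L' ≤ 8 * r * L' := Nat.mul_le_mul_right _ (by omega)
        have e : 2 * (k + 4 * i * L') + s = n + 8 * i * L' := by rw [hk]; ring
        omega
      have h10 : (((2 * (k + 4 * i * L') + s : ℕ) : ℝ)) ^ (1 / 3 - ε) ≤ 2 * L' := by
        obtain ⟨N', hN'⟩ : ∃ N' : ℕ, N' = 2 * (k + 4 * i * L') + s := ⟨_, rfl⟩
        rw [← hN'] at h9 ⊢
        have hN1' : (1 : ℝ) ≤ N' := by
          have : 1 ≤ N' := by omega
          exact_mod_cast this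
        calc (N' : ℝ) ^ (1 / 3 - ε) ≤ (N' : ℝ) ^ (1 / 3 - δ) :=
              Real.rpow_le_rpow_of_exponent_le hN1' (by linarith)
          _ ≤ (2 * n : ℝ) ^ (1 / 3 - δ) :=
              Real.rpow_le_rpow (by linarith) (by exact_mod_cast h9) (by linarith)
          _ = 2 ^ (1 / 3 - δ) * y := by rw [Real.mul_rpow (by norm_num) hn0.le, hy]
          _ ≤ 2 ^ (1 : ℝ) * y := mul_le_mul_of_nonneg_right
              (Real.rpow_le_rpow_of_exponent_le (by norm_num) (by linarith)) (by linarith)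
          _ = 2 * y := by rw [Real.rpow_one]
          _ ≤ 2 * L' := by linarith
      have h11 : (m : ℝ) ≤ ((2 * (k + 4 * i * L') + s + 2 * L' : ℕ) : ℝ) := by
        push_cast at hm4 h10 ⊢
        linarith
      have h12 : m ≤ 2 * (k + 4 * i * L') + s + 2 * L' := by exact_mod_cast h11
      refine ⟨(m - s) / 2, fun _ => ⟨⟨by omega, by omega⟩, ?_⟩⟩
      have : 2 * ((m - s) / 2) + s = m := by omega
      rwa [this]
    · exact ⟨0, fun h => (hi h).elim⟩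
  choose t ht using hnodes
  obtain ⟨g, hg⟩ : ∃ g : ℕ → ℝ, g = fun k : ℕ => L (2 * k + s) - F ((2 * k + s : ℕ) : ℝ) :=
    ⟨_, rfl⟩
  have hρ := rho_nonneg K n
  have key := approx (g := g) hr (k := k) hL1 (s := t) (fun i hi => (ht i hi).1)
    (M := C * rho K n ^ r) (E := |E| * (n : ℝ) ^ (-R)) (by positivity) (by
      intro m hm1 hm2
      rw [hg]
      refine (hdiff m (by omega)).trans (mul_le_mul_of_nonneg_left ?_ hC)
      refine pow_le_pow_left₀ (rho_nonneg _ _) ?_ r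
      refine g1 _ (by omega) ?_
      have : 2 * (4 * r * L') = 8 * r * L' := by ring
      omega) (by
      intro i hi
      obtain ⟨⟨a1, a2⟩, a3⟩ := ht i hi
      rw [hg]
      have hle : n ≤ 2 * t i + s := by
        have : 0 ≤ 4 * i * L' := Nat.zero_le _
        omega
      have b1 := hN2 (2 * t i + s) (by omega) (by omega) a3
      simp only
      refine b1.trans ?_
      have hle' : (n : ℝ) ≤ ((2 * t i + s : ℕ) : ℝ) := by exact_mod_cast hle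
      have b2 : ((2 * t i + s : ℕ) : ℝ) ^ (-R) ≤ (n : ℝ) ^ (-R) :=
        Real.rpow_le_rpow_of_nonpos hn0 hle' (by linarith)
      have b3 : 0 ≤ ((2 * t i + s : ℕ) : ℝ) ^ (-R) := Real.rpow_nonneg (by positivity) _
      calc E * ((2 * t i + s : ℕ) : ℝ) ^ (-R) ≤ |E| * ((2 * t i + s : ℕ) : ℝ) ^ (-R) :=
            mul_le_mul_of_nonneg_right (le_abs_self E) b3
        _ ≤ |E| * (n : ℝ) ^ (-R) := mul_le_mul_of_nonneg_left b2 (abs_nonneg E))
  have hgk : g k = L n - F n := by rw [hg, hk]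
  rw [hgk] at key
  refine key.trans ?_
  have f1 : (4 * r * L' : ℝ) ^ r * (C * rho K n ^ r) ≤ (8 * r : ℝ) ^ r * C * (n : ℝ) ^ (-R) := by
    have f2 : rho K n ≤ (n : ℝ) ^ (-(1 / 3 : ℝ) + δ / 2) := by
      rw [rho_eq (by omega), Real.rpow_def_of_pos hn0]
      refine Real.exp_le_exp.2 ?_
      linarith
    have f3 : (4 * r * L' : ℝ) * rho K n ≤ 8 * r * (n : ℝ) ^ (-(δ / 2)) := by
      calc (4 * r * L' : ℝ) * rho K n ≤ (4 * r * (2 * y)) * (n : ℝ) ^ (-(1 / 3 : ℝ) + δ / 2) := by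
            refine mul_le_mul (mul_le_mul_of_nonneg_left hLy2 (by positivity)) f2 hρ ?_
            have : 0 ≤ y := by linarith
            positivity
        _ = 8 * r * ((n : ℝ) ^ (1 / 3 - δ) * (n : ℝ) ^ (-(1 / 3 : ℝ) + δ / 2)) := by
            rw [hy]; ring
        _ = 8 * r * (n : ℝ) ^ (-(δ / 2)) := by
            rw [← Real.rpow_add hn0]
            congr 2
            ring
    calc (4 * r * L' : ℝ) ^ r * (C * rho K n ^ r) = C * ((4 * r * L' : ℝ) * rho K n) ^ r := by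
          rw [mul_pow]; ring
      _ ≤ C * (8 * r * (n : ℝ) ^ (-(δ / 2))) ^ r :=
          mul_le_mul_of_nonneg_left (pow_le_pow_left₀ (by positivity) f3 r) hC
      _ = (8 * r : ℝ) ^ r * C * ((n : ℝ) ^ (-(δ / 2))) ^ r := by rw [mul_pow]; ring
      _ ≤ (8 * r : ℝ) ^ r * C * (n : ℝ) ^ (-R) := by
          refine mul_le_mul_of_nonneg_left ?_ (by positivity)
          rw [← Real.rpow_natCast, ← Real.rpow_mul hn0.le]
          exact Real.rpow_le_rpow_of_exponent_le hn1 (by linarith)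
  calc r * (2 * r : ℝ) ^ r * (|E| * (n : ℝ) ^ (-R) + (4 * r * L' : ℝ) ^ r * (C * rho K n ^ r))
      ≤ r * (2 * r : ℝ) ^ r * (|E| * (n : ℝ) ^ (-R) + (8 * r : ℝ) ^ r * C * (n : ℝ) ^ (-R)) :=
        mul_le_mul_of_nonneg_left (by linarith) (by positivity)
    _ = _ := by ring

end Pool.Agent.Zk87.SW
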