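import Pool.Agent.Zk87.SW.Rate

/-!
The intermediate value property: package.
-/

set_option autoImplicit false
set_option linter.unusedVariables false

namespace Pool.Agent.Zk87.SW

open Filter Topology
open Pool.Agent.R79.SW

/-- exponents and amplitudes between the extreme ones -/
def Intermediate (x : ℕ → ℝ) (K : ℝ) : Prop :=
  (∀ a ε : ℝ, 0 < ε → (∃ᶠ n in atTop, ex x n ≤ a - ε) → (∃ᶠ n in atTop, a + ε ≤ ex x n) →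
    ∀ B : ℝ, 0 < B → ∀ p : ℕ, p ≤ 1 → Law x K a B p) ∧
  (∀ a B₁ B B₂ : ℝ, 0 < B → B₁ < B → B < B₂ → ∀ p : ℕ,
    (∃ᶠ n : ℕ in atTop, n % 2 = p ∧ x n / (n : ℝ) ^ a ≤ B₁) →
    (∃ᶠ n : ℕ in atTop, n % 2 = p ∧ B₂ ≤ x n / (n : ℝ) ^ a) → Law x K a B p) ∧
  (IsClosed (Lims (ex x)) ∧ (Lims (ex x)).OrdConnected) ∧
  (∀ (a : ℝ) (p : ℕ), IsClosed (AmpLims x a p) ∧ (AmpLims x a p).OrdConnected) ∧
  (∀ g : ℝ, Tendsto (ex x) atTop (𝓝 g) ↔ g ∈ Lims (ex x) ∧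
    ∃ δ : ℝ, 0 < δ ∧ (Lims (ex x) ∩ Set.Ioo (g - δ) (g + δ)).Countable) ∧
  (∀ a B : ℝ, 0 < B → ∀ p : ℕ, p ≤ 1 →
    (Tendsto (fun n : ℕ => x n / (n : ℝ) ^ a) (atTop ⊓ 𝓟 {n : ℕ | n % 2 = p}) (𝓝 B) ↔
      B ∈ AmpLims x a p ∧ ∃ δ : ℝ, 0 < δ ∧
        (AmpLims x a p ∩ Set.Ioo (B - δ) (B + δ)).Countable))

variable {u : ℕ → ℝ} {K C B₀ : ℝ}

theorem Sm.inter (H : Sm u K C B₀) {K' : ℝ} (hK' : K ≤ K') (hC' : 16 * C + 8 ≤ K') :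
    Intermediate u K' :=
  ⟨fun a ε hε h1 h2 B hB p hp => H.law hK' hC' hB (main H.slow hε h1 h2 hB hp),
    fun a B₁ B B₂ hB h1 h2 p f1 f2 => H.law hK' hC' hB (amp_cross H.slow hB h1 h2 f1 f2),
    ⟨closed _, ord H.slow⟩, fun a p => ⟨amp_closed a p, amp_ord H.slow a p⟩,
    fun g => isolated_iff H.slow g, fun a B hB p hp => amp_isolated H.slow hB p hp⟩

theorem Sm.above (H : Sm u K C B₀) {K' : ℝ} (hK' : K ≤ K') (hC' : 16 * C + 8 ≤ K')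
    {b : ℝ} (hb : ∀ᶠ n in atTop, b ≤ ex u n) :
    Tendsto (ex u) atTop atTop ∨ (∃ g, Tendsto (ex u) atTop (𝓝 g)) ∨
    ∃ x y : ℝ, x < y ∧ ∀ a ∈ Set.Ioo x y, ∀ B : ℝ, 0 < B → ∀ p : ℕ, p ≤ 1 → Law u K' a B p := by
  rcases R79.SW.above H.slow hb with h | h | ⟨x, y, hxy, h⟩
  · exact Or.inl h
  · exact Or.inr (Or.inl h)
  · exact Or.inr (Or.inr ⟨x, y, hxy, fun a ha B hB p hp => H.law hK' hC' hB (h a ha B hB p hp)⟩)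

theorem Sm.below (H : Sm u K C B₀) {K' : ℝ} (hK' : K ≤ K') (hC' : 16 * C + 8 ≤ K')
    {b : ℝ} (hb : ∀ᶠ n in atTop, ex u n ≤ b) :
    Tendsto (ex u) atTop atBot ∨ (∃ g, Tendsto (ex u) atTop (𝓝 g)) ∨
    ∃ x y : ℝ, x < y ∧ ∀ a ∈ Set.Ioo x y, ∀ B : ℝ, 0 < B → ∀ p : ℕ, p ≤ 1 → Law u K' a B p := by
  rcases R79.SW.below H.slow hb with h | h | ⟨x, y, hxy, h⟩
  · exact Or.inl h
  · exact Or.inr (Or.inl h)
  · exact Or.inr (Or.inr ⟨x, y, hxy, fun a ha B hB p hp => H.law hK' hC' hB (h a ha B hB p hp)⟩)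

/-- limits along both parities -/
lemma both {g : ℕ → ℝ} {B : ℝ} : Tendsto g atTop (𝓝 B) ↔
    ∀ p : ℕ, p ≤ 1 → Tendsto g (atTop ⊓ 𝓟 {n : ℕ | n % 2 = p}) (𝓝 B) := by
  refine ⟨fun h p _ => h.mono_left inf_le_left, fun h => ?_⟩
  rw [Metric.tendsto_nhds]
  intro ε hε
  have h0 := Metric.tendsto_nhds.1 (h 0 (by norm_num)) ε hε
  have h1 := Metric.tendsto_nhds.1 (h 1 le_rfl) ε hε
  rw [eventually_inf_principal] at h0 h1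
  filter_upwards [h0, h1] with n a0 a1
  rcases Nat.mod_two_eq_zero_or_one n with hn | hn
  · exact a0 hn
  · exact a1 hn

end Pool.Agent.Zk87.SW
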