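import Pool.Agent.Zk87.SW.Expand

/-!
Multiplicative expansions at sparse lengths; extrapolation.
-/

set_option autoImplicit false
set_option linter.unusedVariables false

namespace Pool.Agent.Zk87.SW

open Filter Topology Finset

lemma log_lip {x y : ℝ} (hx : 1 / 2 ≤ x) (hy : 1 / 2 ≤ y) :
    |Real.log x - Real.log y| ≤ 2 * |x - y| := by
  have key : ∀ x y : ℝ, 1 / 2 ≤ x → 1 / 2 ≤ y → Real.log x - Real.log y ≤ 2 * |x - y| := by
    intro x y hx hy
    rw [← Real.log_div (by linarith) (by linarith)]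
    refine (Real.log_le_sub_one_of_pos (by positivity)).trans ?_
    rw [show x / y - 1 = (x - y) / y by field_simp, div_le_iff₀ (by linarith)]
    have := le_abs_self (x - y)
    have := abs_nonneg (x - y)
    nlinarith
  rw [abs_le]
  constructor
  · have := key y x hy hx
    rw [abs_sub_comm y x] at this
    linarith
  · exact key x y hx hy

/-- the truncated logarithm of `1 + h` -/
noncomputable def tl (m : ℕ) (H : ℝ → ℝ) : ℝ → ℝ :=
  fun x => ∑ i ∈ range m, -1 / ((i : ℝ) + 1) * (-1 * H x) ^ (i + 1)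

lemma tl_bound (m : ℕ) (H : ℝ → ℝ) {x : ℝ} (h : |H x| ≤ 1 / 4) :
    |Real.log (1 + H x) - tl m H x| ≤ 2 * |H x| ^ (m + 1) := by
  have h1 := Real.abs_log_sub_add_sum_range_le (x := -H x) (by rw [abs_neg]; linarith) m
  rw [abs_neg, sub_neg_eq_add] at h1
  have e : (∑ i ∈ range m, (-H x) ^ (i + 1) / ((i : ℝ) + 1)) + Real.log (1 + H x) =
      Real.log (1 + H x) - tl m H x := by
    unfold tl
    rw [add_comm, sub_eq_add_neg, ← sum_neg_distrib]
    congr 1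
    refine sum_congr rfl fun i _ => ?_
    ring
  rw [e] at h1
  refine h1.trans ?_
  rw [div_le_iff₀ (by linarith)]
  have := pow_nonneg (abs_nonneg (H x)) (m + 1)
  nlinarith

lemma tl_sy {H : ℝ → ℝ} (h : Pw H) (m : ℕ) : Sy 0 (tl m H) := by
  refine Sf.sy (Pw.sf ?_)
  unfold tl
  exact Pw.sum (F := fun i x => -1 / ((i : ℝ) + 1) * (-1 * H x) ^ (i + 1))
    (fun i => ((h.smul (-1)).pow i).smul _) m

/-- one parity class -/
theorem mul_one' {L : ℕ → ℝ} {K : ℝ} (hK : 0 ≤ K) (hL : Diffs L K) {H : ℝ → ℝ} (hH : Pw H)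
    {S : Set ℕ} {a A ε R E : ℝ} (hA : 0 < A) (hε : 0 < ε) (hR : 0 < R) (hS : Gap S ε) {s : ℕ}
    (hs : s ≤ 1) (h : ∀ᶠ n : ℕ in atTop, n % 2 = s → n ∈ S →
      |Real.exp (L n) / (n : ℝ) ^ a - A * (1 + H n)| ≤ E * (n : ℝ) ^ (-R)) :
    ∃ E' : ℝ, ∀ᶠ n : ℕ in atTop, n % 2 = s →
      |Real.exp (L n) / (n : ℝ) ^ a - A * (1 + H n)| ≤ E' * (n : ℝ) ^ (-R) := by
  obtain ⟨C, θ, hC, hθ, hd⟩ := hH.decay
  obtain ⟨m, hm⟩ : ∃ m : ℕ, m = ⌈R / θ⌉₊ := ⟨_, rfl⟩
  have hmR : R ≤ θ * ((m + 1 : ℕ) : ℝ) := by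
    have h1 : R / θ ≤ m := by rw [hm]; exact Nat.le_ceil _
    rw [div_le_iff₀ hθ] at h1
    push_cast
    linarith
  obtain ⟨F, hF⟩ : ∃ F : ℝ → ℝ, F = fun x => Real.log A + a * Real.log x + tl m H x := ⟨_, rfl⟩
  have hFs : Sy 0 F := by
    rw [hF]
    exact ((sy_const (Real.log A)).add (sy_log.smul a)).add (tl_sy hH m)
  -- smallness
  have hH4 : ∀ᶠ n : ℕ in atTop, |H n| ≤ 1 / 4 := by
    have h1 : Tendsto (fun n : ℕ => C * (n : ℝ) ^ (-θ)) atTop (𝓝 0) := by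
      have := ((tendsto_rpow_neg_atTop hθ).comp tendsto_natCast_atTop_atTop).const_mul C
      simpa using this
    filter_upwards [h1.eventually_le_const (show (0 : ℝ) < 1 / 4 by norm_num),
      eventually_ge_atTop 1] with n h2 h3
    exact (hd n (by exact_mod_cast h3)).trans h2
  have hsm : ∀ c : ℝ, ∀ δ : ℝ, 0 < δ → ∀ᶠ n : ℕ in atTop, c * (n : ℝ) ^ (-R) ≤ δ := by
    intro c δ hδ
    have := ((tendsto_rpow_neg_atTop hR).comp tendsto_natCast_atTop_atTop).const_mul c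
    rw [mul_zero] at this
    exact this.eventually_le_const hδ
  have hpw : ∀ n : ℕ, 1 ≤ n → |H n| ^ (m + 1) ≤ C ^ (m + 1) * (n : ℝ) ^ (-R) := by
    intro n hn
    have hn1 : (1 : ℝ) ≤ n := by exact_mod_cast hn
    have hn0 : (0 : ℝ) < n := by linarith
    refine (pow_le_pow_left₀ (abs_nonneg _) (hd n hn1) (m + 1)).trans ?_
    rw [mul_pow]
    refine mul_le_mul_of_nonneg_left ?_ (by positivity)
    rw [← Real.rpow_natCast, ← Real.rpow_mul hn0.le]
    exact Real.rpow_le_rpow_of_exponent_le hn1 (by linarith)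
  have hq : ∀ n : ℕ, 1 ≤ n → |H n| ≤ 1 / 4 → ∀ q : ℝ, 0 < q →
      q = Real.exp (L n) / (n : ℝ) ^ a / A →
      L n - F n = (Real.log q - Real.log (1 + H n)) + (Real.log (1 + H n) - tl m H n) := by
    intro n hn hHn q hq hqe
    have hn0 : (0 : ℝ) < n := by exact_mod_cast hn
    have h1 : Real.log q = L n - a * Real.log n - Real.log A := by
      rw [hqe, Real.log_div (by positivity) hA.ne', Real.log_div (Real.exp_pos _).ne'
        (Real.rpow_pos_of_pos hn0 a).ne', Real.log_exp, Real.log_rpow hn0]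
    rw [h1, hF]
    ring
  have hfw : ∀ᶠ n : ℕ in atTop, n % 2 = s → n ∈ S →
      |L n - F n| ≤ (2 * (|E| / A) + 2 * C ^ (m + 1)) * (n : ℝ) ^ (-R) := by
    filter_upwards [h, hH4, hsm (|E| / A) (1 / 4) (by norm_num), eventually_ge_atTop 1] with n h1 h2
      h3 h4
    intro h5 h6
    have h7 := h1 h5 h6
    have hn0 : (0 : ℝ) < n := by exact_mod_cast h4
    obtain ⟨q, hqe⟩ : ∃ q, q = Real.exp (L n) / (n : ℝ) ^ a / A := ⟨_, rfl⟩
    have hq0 : 0 < q := by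
      rw [hqe]
      have := Real.rpow_pos_of_pos hn0 a
      positivity
    have hqn : |q - (1 + H n)| ≤ |E| / A * (n : ℝ) ^ (-R) := by
      have e : q - (1 + H n) = (Real.exp (L n) / (n : ℝ) ^ a - A * (1 + H n)) / A := by
        rw [hqe]
        field_simp
      rw [e, abs_div, abs_of_pos hA, div_le_iff₀ hA]
      have h8 : E * (n : ℝ) ^ (-R) ≤ |E| * (n : ℝ) ^ (-R) :=
        mul_le_mul_of_nonneg_right (le_abs_self E) (Real.rpow_nonneg hn0.le _)
      refine (h7.trans h8).trans (le_of_eq ?_)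
      field_simp
    have h9 := (abs_le.1 h2).1
    have h10 := (abs_le.1 hqn).1
    rw [hq n h4 h2 q hq0 hqe]
    have h11 := log_lip (x := q) (y := 1 + H n) (by linarith) (by linarith)
    have h12 := tl_bound m H h2
    have h13 := hpw n h4
    refine (abs_add_le _ _).trans ?_
    have e : (2 * (|E| / A) + 2 * C ^ (m + 1)) * (n : ℝ) ^ (-R) =
      2 * (|E| / A * (n : ℝ) ^ (-R)) + 2 * (C ^ (m + 1) * (n : ℝ) ^ (-R)) := by ring
    rw [e]
    linarith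
  obtain ⟨E', hE'⟩ := transfer_one hK hL hFs hε hR.le hS hs hfw
  obtain ⟨E₂, hE₂⟩ : ∃ E₂ : ℝ, E₂ = |E'| + 2 * C ^ (m + 1) := ⟨_, rfl⟩
  refine ⟨A * (4 * E₂), ?_⟩
  filter_upwards [hE', hH4, hsm E₂ 1 one_pos, eventually_ge_atTop 1] with n h1 h2 h3 h4
  intro h5
  have h6 := h1 h5
  have hn0 : (0 : ℝ) < n := by exact_mod_cast h4
  have hnR : 0 ≤ (n : ℝ) ^ (-R) := Real.rpow_nonneg hn0.le _
  obtain ⟨q, hqe⟩ : ∃ q, q = Real.exp (L n) / (n : ℝ) ^ a / A := ⟨_, rfl⟩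
  have hq0 : 0 < q := by
    rw [hqe]
    have := Real.rpow_pos_of_pos hn0 a
    positivity
  rw [hq n h4 h2 q hq0 hqe] at h6
  have h12 := tl_bound m H h2
  have h13 := hpw n h4
  obtain ⟨x, hx⟩ : ∃ x, x = Real.log q - Real.log (1 + H n) := ⟨_, rfl⟩
  have hH0 := abs_le.1 h2
  have hx1 : |x| ≤ E₂ * (n : ℝ) ^ (-R) := by
    have e : x = (Real.log q - Real.log (1 + H n)) + (Real.log (1 + H n) - tl m H n) -
        (Real.log (1 + H n) - tl m H n) := by rw [hx]; ring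
    rw [e]
    refine (abs_sub _ _).trans ?_
    have h14 : E' * (n : ℝ) ^ (-R) ≤ |E'| * (n : ℝ) ^ (-R) :=
      mul_le_mul_of_nonneg_right (le_abs_self E') hnR
    have e2 : E₂ * (n : ℝ) ^ (-R) = |E'| * (n : ℝ) ^ (-R) + 2 * (C ^ (m + 1) * (n : ℝ) ^ (-R)) := by
      rw [hE₂]; ring
    rw [e2]
    linarith
  have hqx : q = (1 + H n) * Real.exp x := by
    rw [hx, Real.exp_sub, Real.exp_log hq0, Real.exp_log (by linarith)]
    have : 1 + H n ≠ 0 := by linarith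
    field_simp
  have h15 := exp_sub_one (hx1.trans h3)
  have e3 : Real.exp (L n) / (n : ℝ) ^ a - A * (1 + H n) = A * ((1 + H n) * (Real.exp x - 1)) := by
    have : Real.exp (L n) / (n : ℝ) ^ a = A * q := by
      rw [hqe]
      field_simp
    rw [this, hqx]
    ring
  rw [e3, abs_mul, abs_mul, abs_of_pos hA, abs_of_pos (show 0 < 1 + H n by linarith), mul_assoc A]
  refine mul_le_mul_of_nonneg_left ?_ hA.le
  calc (1 + H n) * |Real.exp x - 1| ≤ 2 * (2 * (E₂ * (n : ℝ) ^ (-R))) := by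
        refine mul_le_mul (by linarith) (h15.trans ?_) (abs_nonneg _) (by norm_num)
        linarith
    _ = _ := by ring

/-- both parity classes -/
theorem transfer_mul {L : ℕ → ℝ} {K : ℝ} (hK : 0 ≤ K) (hL : Diffs L K) {H : ℕ → ℝ → ℝ}
    {A : ℕ → ℝ} (hH : ∀ p : ℕ, p ≤ 1 → 0 < A p ∧ Pw (H p)) {S : Set ℕ} {a ε R : ℝ}
    (hε : 0 < ε) (hR : 0 < R) (hS : Gap S ε)
    (h : ∃ E : ℝ, ∀ᶠ n : ℕ in atTop, n ∈ S →
      |Real.exp (L n) / (n : ℝ) ^ a - A (n % 2) * (1 + H (n % 2) n)| ≤ E * (n : ℝ) ^ (-R)) :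
    ∃ E : ℝ, ∀ᶠ n : ℕ in atTop,
      |Real.exp (L n) / (n : ℝ) ^ a - A (n % 2) * (1 + H (n % 2) n)| ≤ E * (n : ℝ) ^ (-R) := by
  obtain ⟨E, hE⟩ := h
  obtain ⟨E0, h0⟩ := mul_one' (s := 0) hK hL (hH 0 (by norm_num)).2 (hH 0 (by norm_num)).1 hε hR hS
    (by norm_num) (by
      filter_upwards [hE] with n h1
      intro h2 h3
      have := h1 h3
      rwa [h2] at this)
  obtain ⟨E1, h1⟩ := mul_one' (s := 1) hK hL (hH 1 le_rfl).2 (hH 1 le_rfl).1 hε hR hS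
    le_rfl (by
      filter_upwards [hE] with n h1
      intro h2 h3
      have := h1 h3
      rwa [h2] at this)
  refine ⟨max E0 E1, ?_⟩
  filter_upwards [h0, h1] with n a0 a1
  have hn : 0 ≤ (n : ℝ) ^ (-R) := Real.rpow_nonneg (Nat.cast_nonneg n) _
  rcases Nat.mod_two_eq_zero_or_one n with h2 | h2
  · have := a0 h2
    rw [h2]
    exact this.trans (mul_le_mul_of_nonneg_right (le_max_left _ _) hn)
  · have := a1 h2
    rw [h2]
    exact this.trans (mul_le_mul_of_nonneg_right (le_max_right _ _) hn)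

/-- extrapolation with superpolynomial accuracy -/
theorem extrapolate {L l : ℕ → ℝ} {K ν : ℝ} (hK : 0 ≤ K) (hL : Diffs L K)
    (hl : ∀ n, l n = L n + ν * n) {ε R : ℝ} (hε : 0 < ε) (hR : 0 < R) :
    ∃ r N : ℕ, 2 ≤ r ∧ ∀ n : ℕ, N ≤ n → ∀ M : ℕ, 1 ≤ M → (M : ℝ) ≤ (n : ℝ) ^ (1 / 3 - ε) →
      ∀ t : ℕ → ℕ, (∀ i < r, t i % 2 = n % 2 ∧ n + 8 * i * M ≤ t i ∧ t i ≤ n + 8 * i * M + 4 * M) →
      |l n - ∑ i ∈ range r, (∏ m ∈ (range r).erase i,
        ((t m : ℝ) - n) / ((t m : ℝ) - t i)) * l (t i)| ≤ (n : ℝ) ^ (-R) := by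
  obtain ⟨r, hrd⟩ : ∃ r : ℕ, r = ⌈(R + 1) * 2 / ε⌉₊ + 2 := ⟨_, rfl⟩
  have hr2 : 2 ≤ r := by omega
  have hr : 1 ≤ r := by omega
  have hr0 : (1 : ℝ) ≤ r := by exact_mod_cast hr
  have hrR : R + 1 ≤ r * (ε / 2) := by
    have h1 : (R + 1) * 2 / ε ≤ r := by
      rw [hrd]
      push_cast
      linarith [Nat.le_ceil ((R + 1) * 2 / ε)]
    rw [div_le_iff₀ hε] at h1
    linarith
  obtain ⟨C, hC, hdiff⟩ : ∃ C : ℝ, 0 ≤ C ∧ ∀ s : ℕ, s ≤ 1 → ∀ k : ℕ, 3 ≤ 2 * k + s →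
      |(D^[r] (fun k : ℕ => l (2 * k + s))) k| ≤ C * rho K (2 * k + s) ^ r := by
    obtain ⟨C1, hC1, h1⟩ := hL r hr
    refine ⟨C1, hC1.le, fun s hs k hk => ?_⟩
    have e : (fun k : ℕ => l (2 * k + s)) =
        fun k : ℕ => L (2 * k + s) - -(ν * ((2 * k + s : ℕ) : ℝ)) := by
      funext k
      rw [hl]
      ring
    rw [e, D_iter_sub]
    simp only
    have h0 : ∀ q : ℕ, D^[q + 2] (fun k : ℕ => -(ν * ((2 * k + s : ℕ) : ℝ))) = fun _ => 0 := by
      have e1 : D (fun k : ℕ => -(ν * ((2 * k + s : ℕ) : ℝ))) = fun _ => -(2 * ν) := by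
        funext k
        unfold D
        push_cast
        ring
      have e2 : D (fun _ : ℕ => -(2 * ν)) = fun _ => 0 := by
        funext k
        unfold D
        ring
      have e3 : D (fun _ : ℕ => (0 : ℝ)) = fun _ => 0 := by
        funext k
        unfold D
        ring
      intro q
      induction q with
      | zero =>
        rw [Function.iterate_succ_apply, e1, Function.iterate_succ_apply, e2]
        rfl
      | succ q ih =>
        rw [show q + 1 + 2 = (q + 2) + 1 by ring, Function.iterate_succ_apply', ih, e3]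
    have h2 := h0 (r - 2)
    rw [show r - 2 + 2 = r by omega] at h2
    rw [h2, sub_zero, D_iter_sum]
    exact h1 (2 * k + s) hk
  obtain ⟨c0, hc0⟩ : ∃ c0 : ℝ, c0 = r * (2 * r : ℝ) ^ r * ((4 * r : ℝ) ^ r * C) := ⟨_, rfl⟩
  have hev : ∀ᶠ n : ℕ in atTop, c0 * (n : ℝ) ^ (-(1 : ℝ)) ≤ 1 := by
    have := ((tendsto_rpow_neg_atTop one_pos).comp tendsto_natCast_atTop_atTop).const_mul c0
    rw [mul_zero] at this
    exact this.eventually_le_const one_pos
  have hbig : ∀ᶠ n : ℕ in atTop, 8 * (r : ℝ) ≤ (n : ℝ) ^ (2 / 3 : ℝ) :=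
    ((tendsto_rpow_atTop (by norm_num)).comp tendsto_natCast_atTop_atTop).eventually_ge_atTop _
  obtain ⟨N, hN⟩ := eventually_atTop.1 ((rho_anti hK).and ((loglog_small K (ε / 2)
    (by positivity)).and (hbig.and (hev.and (eventually_ge_atTop 3)))))
  refine ⟨r, N, hr2, fun n hn M hM hM2 t ht => ?_⟩
  obtain ⟨g1, g2, g3, g4, g5⟩ := hN n hn
  have hn1 : (1 : ℝ) ≤ n := by exact_mod_cast (by omega : 1 ≤ n)
  have hn0 : (0 : ℝ) < n := by linarith
  have hM0 : (1 : ℝ) ≤ M := by exact_mod_cast hM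
  obtain ⟨k, s, hs, hk⟩ : ∃ k s : ℕ, s ≤ 1 ∧ n = 2 * k + s := ⟨n / 2, n % 2, by omega, by omega⟩
  have h8 : 8 * r * M ≤ n := by
    have e1 : (n : ℝ) ^ (2 / 3 : ℝ) * (n : ℝ) ^ (1 / 3 : ℝ) = n := by
      rw [← Real.rpow_add hn0]
      norm_num
    have e3 : (n : ℝ) ^ (1 / 3 - ε) ≤ (n : ℝ) ^ (1 / 3 : ℝ) :=
      Real.rpow_le_rpow_of_exponent_le hn1 (by linarith)
    have e2 : 8 * (r : ℝ) * M ≤ n := by
      calc 8 * (r : ℝ) * M ≤ (n : ℝ) ^ (2 / 3 : ℝ) * (n : ℝ) ^ (1 / 3 : ℝ) :=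
            mul_le_mul g3 (hM2.trans e3) (by positivity) (by positivity)
        _ = n := e1
    exact_mod_cast e2
  obtain ⟨s', hs'⟩ : ∃ s' : ℕ → ℕ, s' = fun i => (t i - s) / 2 := ⟨_, rfl⟩
  have ht' : ∀ i < r, t i = 2 * s' i + s := by
    intro i hi
    obtain ⟨a1, a2, a3⟩ := ht i hi
    have e0 : 8 * i * M = 2 * (4 * i * M) := by ring
    rw [hs']
    simp only
    omega
  have hnodes : ∀ i < r, k + 4 * i * M ≤ s' i ∧ s' i ≤ k + 4 * i * M + 2 * M := by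
    intro i hi
    obtain ⟨a1, a2, a3⟩ := ht i hi
    have a4 := ht' i hi
    have e0 : 8 * i * M = 2 * (4 * i * M) := by ring
    omega
  have hρ := rho_nonneg K n
  obtain ⟨key, -⟩ := approx0 (g := fun k : ℕ => l (2 * k + s)) hr (k := k) hM (s := s') hnodes
    (M := C * rho K n ^ r) (by positivity) (by
      intro m hm1 hm2
      refine (hdiff s hs m (by omega)).trans (mul_le_mul_of_nonneg_left ?_ hC)
      refine pow_le_pow_left₀ (rho_nonneg _ _) ?_ r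
      refine g1 _ (by omega) ?_
      have : 2 * (4 * r * M) = 8 * r * M := by ring
      omega)
  have e : l n - ∑ i ∈ range r, (∏ m ∈ (range r).erase i,
      ((t m : ℝ) - n) / ((t m : ℝ) - t i)) * l (t i) =
      (fun k : ℕ => l (2 * k + s)) k - ∑ i ∈ range r, (fun k : ℕ => l (2 * k + s)) (s' i) *
        wt r (fun m => ((s' m - k : ℕ) : ℝ)) i := by
    simp only
    rw [← hk]
    congr 1
    refine sum_congr rfl fun i hi => ?_
    have hi' := mem_range.1 hi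
    rw [← ht' i hi', mul_comm]
    congr 1
    unfold wt
    refine prod_congr rfl fun m hm => ?_
    have hm' := mem_range.1 (mem_of_mem_erase hm)
    have b1 := (hnodes m hm').1
    have b2 := (hnodes i hi').1
    have c1 : ((s' m - k : ℕ) : ℝ) = (s' m : ℝ) - k := by
      rw [Nat.cast_sub]
      have : 0 ≤ 4 * m * M := Nat.zero_le _
      omega
    have c2 : ((s' i - k : ℕ) : ℝ) = (s' i : ℝ) - k := by
      rw [Nat.cast_sub]
      have : 0 ≤ 4 * i * M := Nat.zero_le _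
      omega
    beta_reduce
    rw [c1, c2, ht' m hm', ht' i hi', hk]
    push_cast
    rw [show (2 * (s' m : ℝ) + s - (2 * k + s)) = 2 * (s' m - k) by ring,
      show (2 * (s' m : ℝ) + s - (2 * s' i + s)) = 2 * (s' m - k - (s' i - k)) by ring]
    rw [mul_div_mul_left _ _ (by norm_num : (2 : ℝ) ≠ 0)]
  rw [e]
  refine key.trans ?_
  have f2 : rho K n ≤ (n : ℝ) ^ (-(1 / 3 : ℝ) + ε / 2) := by
    rw [rho_eq (by omega), Real.rpow_def_of_pos hn0]
    refine Real.exp_le_exp.2 ?_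
    linarith
  have f3 : (M : ℝ) * rho K n ≤ (n : ℝ) ^ (-(ε / 2)) := by
    calc (M : ℝ) * rho K n ≤ (n : ℝ) ^ (1 / 3 - ε) * (n : ℝ) ^ (-(1 / 3 : ℝ) + ε / 2) :=
          mul_le_mul hM2 f2 hρ (by positivity)
      _ = (n : ℝ) ^ (-(ε / 2)) := by
          rw [← Real.rpow_add hn0]
          congr 1
          ring
  have f4 : ((M : ℝ) * rho K n) ^ r ≤ (n : ℝ) ^ (-(R + 1)) := by
    refine (pow_le_pow_left₀ (by positivity) f3 r).trans ?_
    rw [← Real.rpow_natCast, ← Real.rpow_mul hn0.le]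
    exact Real.rpow_le_rpow_of_exponent_le hn1 (by linarith)
  calc r * (2 * r : ℝ) ^ r * ((4 * r * M : ℝ) ^ r * (C * rho K n ^ r))
      = c0 * ((M : ℝ) * rho K n) ^ r := by
        rw [hc0, mul_pow (4 * (r : ℝ)) (M : ℝ), mul_pow (M : ℝ) (rho K n)]
        ring
    _ ≤ c0 * (n : ℝ) ^ (-(R + 1)) := mul_le_mul_of_nonneg_left f4 (by rw [hc0]; positivity)
    _ = c0 * (n : ℝ) ^ (-(1 : ℝ)) * (n : ℝ) ^ (-R) := by
        rw [mul_assoc, ← Real.rpow_add hn0]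
        congr 2
        ring
    _ ≤ 1 * (n : ℝ) ^ (-R) := mul_le_mul_of_nonneg_right g4 (Real.rpow_nonneg hn0.le _)
    _ = (n : ℝ) ^ (-R) := one_mul _

end Pool.Agent.Zk87.SW
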