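import Mathlib

/-!
A function on `ℕ` with small differences of order `r` is determined by its values at `r` separated
points.
-/

set_option autoImplicit false
set_option linter.unusedVariables false

namespace Pool.Agent.Zk87.SW

open Finset Polynomial

/-- forward difference -/
def D (g : ℕ → ℝ) : ℕ → ℝ := fun n => g (n + 1) - g n

/-- the remainder of Newton's formula -/
def New (r : ℕ) (g : ℕ → ℝ) (k j : ℕ) : ℝ :=
  g (k + j) - ∑ i ∈ range r, (j.choose i : ℝ) * (D^[i] g) k

lemma new_zero (r : ℕ) (g : ℕ → ℝ) (k : ℕ) : New (r + 1) g k 0 = 0 := by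
  unfold New
  rw [sum_range_succ']
  simp

lemma new_succ (r : ℕ) (g : ℕ → ℝ) (k j : ℕ) :
    New (r + 1) g k (j + 1) = New (r + 1) g k j + New r (D g) k j := by
  unfold New
  have e : ∑ i ∈ range (r + 1), ((j + 1).choose i : ℝ) * (D^[i] g) k =
      ∑ i ∈ range (r + 1), (j.choose i : ℝ) * (D^[i] g) k +
        ∑ i ∈ range r, (j.choose i : ℝ) * (D^[i] (D g)) k := by
    rw [sum_range_succ', sum_range_succ' (fun i => (j.choose i : ℝ) * (D^[i] g) k)]
    simp only [Nat.choose_zero_right, Nat.cast_one, one_mul, Function.iterate_zero, id_eq]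
    have : ∀ i, (((j + 1).choose (i + 1) : ℕ) : ℝ) * (D^[i + 1] g) k =
        (j.choose (i + 1) : ℝ) * (D^[i + 1] g) k + (j.choose i : ℝ) * (D^[i] (D g)) k := by
      intro i
      rw [Nat.choose_succ_succ, ← Function.iterate_succ_apply]
      push_cast
      ring
    simp only [this, sum_add_distrib]
    ring
  rw [e]
  have : g (k + (j + 1)) = g (k + j) + D g (k + j) := by
    unfold D
    rw [add_assoc]
    ring
  rw [this]
  ring

lemma new_bound (r : ℕ) : ∀ (g : ℕ → ℝ) (k j : ℕ) (M : ℝ),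
    (∀ m, k ≤ m → m ≤ k + j → |(D^[r] g) m| ≤ M) → |New r g k j| ≤ (j.choose r) * M := by
  induction r with
  | zero =>
    intro g k j M h
    unfold New
    simp only [range_zero, sum_empty, sub_zero, Nat.choose_zero_right, Nat.cast_one, one_mul]
    exact h (k + j) (by omega) le_rfl
  | succ r ihr =>
    intro g k j
    induction j with
    | zero =>
      intro M h
      rw [new_zero]
      simp
    | succ j ihj =>
      intro M h
      rw [new_succ]
      have h1 := ihj M fun m hm hm' => h m hm (by omega)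
      have h2 := ihr (D g) k j M fun m hm hm' => by
        rw [← Function.iterate_succ_apply]
        exact h m hm (by omega)
      rw [Nat.choose_succ_succ]
      push_cast
      calc _ ≤ _ := abs_add_le _ _
        _ ≤ _ := add_le_add h1 h2
        _ = _ := by ring

/-- the polynomial of Newton's formula -/
noncomputable def pol (r : ℕ) (g : ℕ → ℝ) (k : ℕ) : ℝ[X] :=
  ∑ i ∈ range r, C ((D^[i] g) k / (i.factorial : ℝ)) * descPochhammer ℝ i

lemma pol_eval (r : ℕ) (g : ℕ → ℝ) (k j : ℕ) :
    (pol r g k).eval (j : ℝ) = g (k + j) - New r g k j := by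
  unfold pol New
  rw [eval_finsetSum, sub_sub_cancel]
  refine sum_congr rfl fun i _ => ?_
  rw [eval_mul, eval_C, descPochhammer_eval_eq_descFactorial, Nat.descFactorial_eq_factorial_mul_choose]
  have := (Nat.cast_pos (α := ℝ).2 i.factorial_pos).ne'
  push_cast
  field_simp

lemma pol_degree {r : ℕ} (hr : 1 ≤ r) (g : ℕ → ℝ) (k : ℕ) : (pol r g k).degree < (r : ℕ) := by
  unfold pol
  refine lt_of_le_of_lt (degree_sum_le _ _) ?_
  rw [Finset.sup_lt_iff (by exact_mod_cast WithBot.bot_lt_coe r)]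
  intro i hi
  have h1 := mem_range.1 hi
  have h2 : (C ((D^[i] g) k / (i.factorial : ℝ)) * descPochhammer ℝ i).degree ≤
      (descPochhammer ℝ i).degree := by
    refine (degree_mul_le _ _).trans ?_
    have h3 : (C ((D^[i] g) k / (i.factorial : ℝ))).degree ≤ 0 := degree_C_le
    exact (add_le_add h3 le_rfl).trans (le_of_eq (zero_add _))
  refine lt_of_le_of_lt h2 ?_
  rw [degree_eq_natDegree (monic_descPochhammer ℝ i).ne_zero, descPochhammer_natDegree]
  exact_mod_cast h1

/-- the weights -/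
noncomputable def wt (r : ℕ) (v : ℕ → ℝ) (i : ℕ) : ℝ := ∏ m ∈ (range r).erase i, v m / (v m - v i)

/-- the value at `k` from values at separated points, and the size of the weights -/
theorem approx0 {g : ℕ → ℝ} {r : ℕ} (hr : 1 ≤ r) {k L : ℕ} (hL : 1 ≤ L) {s : ℕ → ℕ}
    (hs : ∀ i < r, k + 4 * i * L ≤ s i ∧ s i ≤ k + 4 * i * L + 2 * L) {M : ℝ} (hM : 0 ≤ M)
    (hD : ∀ m, k ≤ m → m ≤ k + 4 * r * L → |(D^[r] g) m| ≤ M) :
    |g k - ∑ i ∈ range r, g (s i) * wt r (fun m => ((s m - k : ℕ) : ℝ)) i| ≤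
      r * (2 * r : ℝ) ^ r * ((4 * r * L : ℝ) ^ r * M) ∧
    ∀ i ∈ range r, |wt r (fun m => ((s m - k : ℕ) : ℝ)) i| ≤ (2 * r : ℝ) ^ r := by
  have hr0 : (1 : ℝ) ≤ r := by exact_mod_cast hr
  have hL0 : (1 : ℝ) ≤ L := by exact_mod_cast hL
  obtain ⟨v, hv⟩ : ∃ v : ℕ → ℝ, v = fun i => ((s i - k : ℕ) : ℝ) := ⟨_, rfl⟩
  rw [← hv]
  have hvi : ∀ i < r, v i = (s i : ℝ) - k := fun i hi => by
    rw [hv]
    simp only
    rw [Nat.cast_sub (by have := (hs i hi).1; omega)]
  have hsep : ∀ i < r, ∀ m < r, i < m → 2 * (L : ℝ) ≤ v m - v i := by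
    intro i hi m hm him
    rw [hvi i hi, hvi m hm]
    have h1 := (hs i hi).2
    have h2 := (hs m hm).1
    have h3 : k + 4 * i * L + 4 * L ≤ k + 4 * m * L := by
      have : 4 * (i + 1) * L ≤ 4 * m * L := Nat.mul_le_mul_right _ (by omega)
      nlinarith
    have h4 : s i + 2 * L ≤ s m := by omega
    have h5 : (s i : ℝ) + 2 * L ≤ s m := by exact_mod_cast h4
    linarith
  have hinj : Set.InjOn v (range r : Finset ℕ) := by
    intro a ha b hb hab
    have ha' := mem_range.1 (mem_coe.1 ha)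
    have hb' := mem_range.1 (mem_coe.1 hb)
    by_contra hne
    rcases lt_or_gt_of_ne hne with h | h
    · have := hsep a ha' b hb' h
      linarith
    · have := hsep b hb' a ha' h
      linarith
  have hup : ∀ i < r, 0 ≤ v i ∧ v i ≤ 4 * r * L := by
    intro i hi
    rw [hvi i hi]
    have h1 := hs i hi
    have h3 : k + 4 * i * L + 4 * L ≤ k + 4 * r * L := by
      have : 4 * (i + 1) * L ≤ 4 * r * L := Nat.mul_le_mul_right _ (by omega)
      nlinarith
    have h4 : k ≤ s i := by omega
    have h5 : s i ≤ k + 4 * r * L := by omega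
    have h6 : (k : ℝ) ≤ s i := by exact_mod_cast h4
    have h7 : (s i : ℝ) ≤ k + 4 * r * L := by exact_mod_cast h5
    constructor <;> linarith
  have hbw : ∀ i ∈ range r, (Lagrange.basis (range r) v i).eval 0 = wt r v i := by
    intro i hi
    unfold Lagrange.basis wt
    rw [eval_prod]
    refine prod_congr rfl fun m hm => ?_
    unfold Lagrange.basisDivisor
    rw [eval_mul, eval_C, eval_sub, eval_X, eval_C, zero_sub, div_eq_inv_mul,
      show v i - v m = -(v m - v i) by ring, inv_neg]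
    ring
  have hint := Lagrange.eq_interpolate (s := range r) (v := v) hinj
    (f := pol r g k) (by rw [card_range]; exact pol_degree hr g k)
  have hev : g k = ∑ i ∈ range r, (pol r g k).eval (v i) * wt r v i := by
    have h1 : (pol r g k).eval 0 = g k := by
      have := pol_eval r g k 0
      obtain ⟨r', rfl⟩ : ∃ r', r = r' + 1 := ⟨r - 1, by omega⟩
      rw [new_zero, sub_zero, add_zero] at this
      exact_mod_cast this
    rw [← h1]
    conv_lhs => rw [hint]
    rw [Lagrange.interpolate_apply, eval_finsetSum]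
    refine sum_congr rfl fun i hi => ?_
    rw [eval_mul, eval_C, hbw i hi]
  have hw : ∀ i ∈ range r, |wt r v i| ≤ (2 * r : ℝ) ^ r := by
    intro i hi
    have hi' := mem_range.1 hi
    unfold wt
    rw [abs_prod]
    have h1 : ∀ m ∈ (range r).erase i, |v m / (v m - v i)| ≤ 2 * r := by
      intro m hm
      have hm' := mem_range.1 (mem_of_mem_erase hm)
      have hne : m ≠ i := ne_of_mem_erase hm
      have h2 : 2 * (L : ℝ) ≤ |v m - v i| := by
        rcases lt_or_gt_of_ne hne with h | h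
        · rw [abs_sub_comm]
          exact (hsep m hm' i hi' h).trans (le_abs_self _)
        · exact (hsep i hi' m hm' h).trans (le_abs_self _)
      rw [abs_div]
      have h3 := hup m hm'
      rw [abs_of_nonneg h3.1]
      have h4 : 0 < |v m - v i| := by linarith
      rw [div_le_iff₀ h4]
      nlinarith
    refine (prod_le_prod (fun m _ => abs_nonneg _) h1).trans ?_
    rw [prod_const, card_erase_of_mem hi, card_range]
    exact pow_le_pow_right₀ (by linarith) (by omega)
  refine ⟨?_, hw⟩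
  have hp : ∀ i ∈ range r, |(pol r g k).eval (v i) - g (s i)| ≤ (4 * r * L : ℝ) ^ r * M := by
    intro i hi
    have hi' := mem_range.1 hi
    have h1 := hs i hi'
    have h3 : k + 4 * i * L + 4 * L ≤ k + 4 * r * L := by
      have : 4 * (i + 1) * L ≤ 4 * r * L := Nat.mul_le_mul_right _ (by omega)
      nlinarith
    have e : v i = ((s i - k : ℕ) : ℝ) := by rw [hv]
    rw [e, pol_eval, show k + (s i - k) = s i by omega]
    have h4 := new_bound r g k (s i - k) M fun m hm hm' => hD m hm (by omega)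
    have h5 : (((s i - k).choose r : ℕ) : ℝ) ≤ (4 * r * L : ℝ) ^ r := by
      have h6 : (s i - k).choose r ≤ (4 * r * L) ^ r :=
        (Nat.choose_le_pow _ _).trans (Nat.pow_le_pow_left (by omega) r)
      exact_mod_cast h6
    rw [show g (s i) - New r g k (s i - k) - g (s i) = -New r g k (s i - k) by ring, abs_neg]
    exact h4.trans (mul_le_mul_of_nonneg_right h5 hM)
  have e : g k - ∑ i ∈ range r, g (s i) * wt r v i =
      ∑ i ∈ range r, ((pol r g k).eval (v i) - g (s i)) * wt r v i := by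
    conv_lhs => rw [hev]
    rw [← sum_sub_distrib]
    exact sum_congr rfl fun i _ => by ring
  rw [e]
  refine (abs_sum_le_sum_abs _ _).trans ?_
  have : ∀ i ∈ range r, |((pol r g k).eval (v i) - g (s i)) * wt r v i| ≤
      (2 * r : ℝ) ^ r * ((4 * r * L : ℝ) ^ r * M) := by
    intro i hi
    rw [abs_mul, mul_comm]
    exact mul_le_mul (hw i hi) (hp i hi) (abs_nonneg _) (by positivity)
  refine (sum_le_sum this).trans (le_of_eq ?_)
  rw [sum_const, card_range, nsmul_eq_mul]
  ring

/-- the size of the value at `k` -/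
theorem approx {g : ℕ → ℝ} {r : ℕ} (hr : 1 ≤ r) {k L : ℕ} (hL : 1 ≤ L) {s : ℕ → ℕ}
    (hs : ∀ i < r, k + 4 * i * L ≤ s i ∧ s i ≤ k + 4 * i * L + 2 * L) {M E : ℝ} (hM : 0 ≤ M)
    (hD : ∀ m, k ≤ m → m ≤ k + 4 * r * L → |(D^[r] g) m| ≤ M)
    (hS : ∀ i < r, |g (s i)| ≤ E) :
    |g k| ≤ r * (2 * r : ℝ) ^ r * (E + (4 * r * L : ℝ) ^ r * M) := by
  obtain ⟨h1, hw⟩ := approx0 hr hL hs hM hD
  have h2 : |∑ i ∈ range r, g (s i) * wt r (fun m => ((s m - k : ℕ) : ℝ)) i| ≤
      r * ((2 * r : ℝ) ^ r * E) := by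
    refine (abs_sum_le_sum_abs _ _).trans ?_
    have : ∀ i ∈ range r, |g (s i) * wt r (fun m => ((s m - k : ℕ) : ℝ)) i| ≤
        (2 * r : ℝ) ^ r * E := by
      intro i hi
      rw [abs_mul, mul_comm]
      exact mul_le_mul (hw i hi) (hS i (mem_range.1 hi)) (abs_nonneg _) (by positivity)
    refine (sum_le_sum this).trans (le_of_eq ?_)
    rw [sum_const, card_range, nsmul_eq_mul]
  have h3 := abs_sub_abs_le_abs_sub (g k)
    (∑ i ∈ range r, g (s i) * wt r (fun m => ((s m - k : ℕ) : ℝ)) i)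
  have e : r * (2 * r : ℝ) ^ r * (E + (4 * r * L : ℝ) ^ r * M) =
      r * ((2 * r : ℝ) ^ r * E) + r * (2 * r : ℝ) ^ r * ((4 * r * L : ℝ) ^ r * M) := by ring
  rw [e]
  linarith

end Pool.Agent.Zk87.SW
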