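import Pool.Agent.R79.SW.Cross

/-!
Positive sequences with slow variation along each parity: power laws in windows at infinitely many
places, for exponents and amplitudes between the extreme ones.
-/

set_option autoImplicit false
set_option linter.unusedVariables false

namespace Pool.Agent.Zk87.SW

open Filter Topology
open Pool.Agent.R79.SW

variable {u r : ℕ → ℝ} {M : ℝ}

/-- a crossing -/
lemma cross_concl (S : Slow u r M) {c B : ℝ} (hB : 0 < B) {p : ℕ}
    (hneg : ∃ᶠ n : ℕ in atTop, n % 2 = p ∧ Real.log (u n) - c * Real.log n - Real.log B < 0)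
    (hpos : ∃ᶠ n : ℕ in atTop, n % 2 = p ∧ 0 ≤ Real.log (u n) - c * Real.log n - Real.log B) :
    ∃ᶠ n : ℕ in atTop, n % 2 = p ∧ |u n / (n : ℝ) ^ c - B| ≤ B * (2 * r n + 2 * |c| / n) := by
  set w : ℕ → ℝ := fun n => Real.log (u n) - c * Real.log n - Real.log B with hw
  have hhalf : ∀ᶠ n in atTop, r n < 1 / 2 := S.lim.eventually_lt_const (by norm_num)
  refine ((cross (w := w) hneg hpos).and_eventually
    (S.rate.and (hhalf.and (eventually_ge_atTop 1)))).mono ?_
  rintro n ⟨⟨c1, c2, c3⟩, c4, c5, c6⟩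
  refine ⟨c1, ?_⟩
  have hn0 : (0 : ℝ) < n := by exact_mod_cast c6
  have hnc : (0 : ℝ) < (n : ℝ) ^ c := Real.rpow_pos_of_pos hn0 c
  have d1 := (abs_le.mp (log_step (S.pos n) (S.pos (n + 2)) c4 c5.le)).2
  have d2 : |c * Real.log ((n + 2 : ℕ) : ℝ) - c * Real.log n| ≤ |c| * (2 / n) := by
    rw [← mul_sub, abs_mul]
    refine mul_le_mul_of_nonneg_left ?_ (abs_nonneg c)
    simpa using log_add_le c6 2
  have d3 := (abs_le.mp d2).1
  simp only [hw] at c2 c3
  set D := 2 * r n + 2 * |c| / n with hD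
  have e0 : |c| * (2 / n) = 2 * |c| / n := by ring
  rw [e0] at d3
  have d4 : -D ≤ Real.log (u n) - c * Real.log n - Real.log B := by
    rw [hD]
    linarith
  have e1 : u n / (n : ℝ) ^ c = B * Real.exp (Real.log (u n) - c * Real.log n - Real.log B) := by
    rw [Real.exp_sub, Real.exp_sub, Real.exp_log (S.pos n), Real.exp_log hB, mul_comm c,
      ← Real.rpow_def_of_pos hn0]
    field_simp
  set x := Real.log (u n) - c * Real.log n - Real.log B with hx
  have e2 : Real.exp x ≤ 1 := Real.exp_le_one_iff.mpr c2.le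
  have e3 := Real.add_one_le_exp x
  rw [e1, show B * Real.exp x - B = B * (Real.exp x - 1) by ring, abs_mul, abs_of_pos hB]
  refine mul_le_mul_of_nonneg_left ?_ hB.le
  rw [abs_of_nonpos (by linarith)]
  linarith

/-- the sign of `log u - c log n - log B` -/
lemma log_form (S : Slow u r M) {c B : ℝ} (hB : 0 < B) {n : ℕ} (hn : 1 ≤ n) :
    Real.log (u n) - c * Real.log n - Real.log B = Real.log (u n / (n : ℝ) ^ c / B) := by
  have hn0 : (0 : ℝ) < n := by exact_mod_cast hn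
  have hnc : (0 : ℝ) < (n : ℝ) ^ c := Real.rpow_pos_of_pos hn0 c
  have hu := S.pos n
  rw [Real.log_div (by positivity) hB.ne', Real.log_div hu.ne' hnc.ne', Real.log_rpow hn0]

/-- amplitudes between the extreme ones, along one parity -/
theorem amp_cross (S : Slow u r M) {c B B₁ B₂ : ℝ} (hB : 0 < B) (h1 : B₁ < B) (h2 : B < B₂) {p : ℕ}
    (f1 : ∃ᶠ n : ℕ in atTop, n % 2 = p ∧ u n / (n : ℝ) ^ c ≤ B₁)
    (f2 : ∃ᶠ n : ℕ in atTop, n % 2 = p ∧ B₂ ≤ u n / (n : ℝ) ^ c) :
    ∃ᶠ n : ℕ in atTop, n % 2 = p ∧ |u n / (n : ℝ) ^ c - B| ≤ B * (2 * r n + 2 * |c| / n) := by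
  refine cross_concl S hB ?_ ?_
  · refine (f1.and_eventually (eventually_ge_atTop 1)).mono ?_
    rintro n ⟨⟨a1, a2⟩, a3⟩
    refine ⟨a1, ?_⟩
    have hn0 : (0 : ℝ) < n := by exact_mod_cast a3
    have hnc : (0 : ℝ) < (n : ℝ) ^ c := Real.rpow_pos_of_pos hn0 c
    have hu := S.pos n
    rw [log_form S hB a3]
    refine Real.log_neg (by positivity) ?_
    rw [div_lt_one hB]
    linarith
  · refine (f2.and_eventually (eventually_ge_atTop 1)).mono ?_
    rintro n ⟨⟨a1, a2⟩, a3⟩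
    refine ⟨a1, ?_⟩
    rw [log_form S hB a3]
    refine Real.log_nonneg ?_
    rw [one_le_div hB]
    linarith

/-! ### Windows -/

/-- the rates do not increase, up to a factor `3` in the length -/
def Anti (r : ℕ → ℝ) : Prop := ∀ᶠ n in atTop, ∀ m : ℕ, n ≤ m → m ≤ 3 * n → r m ≤ r n

lemma exp_sub_one {x : ℝ} (h : |x| ≤ 1) : |Real.exp x - 1| ≤ 2 * |x| := by
  have h1 := Real.abs_exp_sub_one_le h
  exact h1

/-- from one length to a window of lengths of the same parity -/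
theorem window (S : Slow u r M) (ha : Anti r) {c B : ℝ} (hB : 0 < B) {p : ℕ}
    (h : ∃ᶠ n : ℕ in atTop, n % 2 = p ∧ |u n / (n : ℝ) ^ c - B| ≤ B * (2 * r n + 2 * |c| / n)) :
    ∃ᶠ n : ℕ in atTop, n % 2 = p ∧ ∀ j : ℕ, j ≤ n → 4 * (1 + j) * (r n + |c| / n) ≤ 1 →
      |u (n + 2 * j) / ((n + 2 * j : ℕ) : ℝ) ^ c - B| ≤ 8 * (1 + j) * (r n + |c| / n) * B := by
  have hhalf : ∀ᶠ n in atTop, r n < 1 / 8 := S.lim.eventually_lt_const (by norm_num)
  have hlim : ∀ᶠ n : ℕ in atTop, 2 * |c| / (n : ℝ) < 1 / 8 :=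
    (tendsto_const_div_atTop_nhds_zero_nat _).eventually_lt_const (by norm_num)
  obtain ⟨N0, hN0⟩ := eventually_atTop.1 (S.rate.and (hhalf.and hlim))
  refine (h.and_eventually (ha.and (eventually_ge_atTop (N0 + 1)))).mono ?_
  rintro n ⟨⟨a1, a2⟩, a3, a4⟩
  refine ⟨a1, fun j hj hsmall => ?_⟩
  have hn1 : 1 ≤ n := by omega
  have hn0 : (0 : ℝ) < n := by exact_mod_cast hn1
  obtain ⟨b1, b2, b3⟩ := hN0 n (by omega)
  have hr0 : 0 ≤ r n := (abs_nonneg _).trans b1
  have hc0 : 0 ≤ |c| / n := by positivity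
  have e0 : 2 * |c| / (n : ℝ) = 2 * (|c| / n) := by ring
  rw [e0] at a2 b3
  -- the logarithms
  have hnc : (0 : ℝ) < (n : ℝ) ^ c := Real.rpow_pos_of_pos hn0 c
  have hu := S.pos n
  have s1 : |u n / (n : ℝ) ^ c / B - 1| ≤ 2 * r n + 2 * (|c| / n) := by
    rw [show u n / (n : ℝ) ^ c / B - 1 = (u n / (n : ℝ) ^ c - B) / B by field_simp, abs_div,
      abs_of_pos hB, div_le_iff₀ hB, mul_comm]
    exact a2
  have s2 := log_step hB (show 0 < u n / (n : ℝ) ^ c by positivity) s1 (by linarith)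
  have s3 : ∀ i : ℕ, i ≤ j → |Real.log (u (n + 2 * i)) - Real.log (u n)| ≤ 2 * i * r n := by
    intro i
    induction i with
    | zero => intro _; simp
    | succ i ih =>
      intro hi
      have h1 := ih (by omega)
      obtain ⟨c1, c2, c3⟩ := hN0 (n + 2 * i) (by omega)
      have c4 := a3 (n + 2 * i) (by omega) (by omega)
      have c5 := log_step (S.pos (n + 2 * i)) (S.pos (n + 2 * i + 2)) c1 (by linarith)
      rw [show n + 2 * (i + 1) = n + 2 * i + 2 by ring]
      push_cast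
      calc |Real.log (u (n + 2 * i + 2)) - Real.log (u n)|
          ≤ |Real.log (u (n + 2 * i + 2)) - Real.log (u (n + 2 * i))| +
            |Real.log (u (n + 2 * i)) - Real.log (u n)| := abs_sub_le _ _ _
        _ ≤ 2 * r n + 2 * i * r n := by linarith
        _ = 2 * (i + 1) * r n := by ring
  have s4 := s3 j le_rfl
  have s5 : |c * Real.log ((n + 2 * j : ℕ) : ℝ) - c * Real.log n| ≤ 2 * j * (|c| / n) := by
    rw [← mul_sub, abs_mul]
    have := mul_le_mul_of_nonneg_left (log_add_le hn1 (2 * j)) (abs_nonneg c)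
    refine this.trans (le_of_eq ?_)
    push_cast
    ring
  obtain ⟨m, hm⟩ : ∃ m : ℕ, m = n + 2 * j := ⟨_, rfl⟩
  rw [← hm] at s4 s5 ⊢
  have hm0 : (0 : ℝ) < m := by
    have : 0 < m := by omega
    exact_mod_cast this
  have hmc : (0 : ℝ) < (m : ℝ) ^ c := Real.rpow_pos_of_pos hm0 c
  have hum := S.pos m
  have s6 : Real.log (u n / (n : ℝ) ^ c) - Real.log B =
      Real.log (u n) - c * Real.log n - Real.log B := by
    rw [Real.log_div hu.ne' hnc.ne', Real.log_rpow hn0]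
  rw [s6] at s2
  obtain ⟨x, hx⟩ : ∃ x, x = Real.log (u m) - c * Real.log m - Real.log B := ⟨_, rfl⟩
  have hj0 : (0 : ℝ) ≤ j := Nat.cast_nonneg j
  have s7 : |x| ≤ 4 * (1 + j) * (r n + |c| / n) := by
    have t1 : x = (Real.log (u n) - c * Real.log n - Real.log B) +
        (Real.log (u m) - Real.log (u n)) - (c * Real.log m - c * Real.log n) := by
      rw [hx]; ring
    have t2 : |x| ≤ |Real.log (u n) - c * Real.log n - Real.log B| +
        |Real.log (u m) - Real.log (u n)| + |c * Real.log m - c * Real.log n| := by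
      rw [t1]
      exact (abs_sub _ _).trans (by
        have := abs_add_le (Real.log (u n) - c * Real.log n - Real.log B)
          (Real.log (u m) - Real.log (u n))
        linarith)
    have t3 : 0 ≤ (j : ℝ) * r n := by positivity
    have t4 : 0 ≤ (j : ℝ) * (|c| / n) := by positivity
    nlinarith
  have e1 : u m / (m : ℝ) ^ c = B * Real.exp x := by
    rw [hx, Real.exp_sub, Real.exp_sub, Real.exp_log hum, Real.exp_log hB, mul_comm c,
      ← Real.rpow_def_of_pos hm0]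
    field_simp
  rw [e1, show B * Real.exp x - B = B * (Real.exp x - 1) by ring, abs_mul, abs_of_pos hB]
  have s8 := exp_sub_one (s7.trans hsmall)
  nlinarith [mul_le_mul_of_nonneg_left (s8.trans (mul_le_mul_of_nonneg_left s7 (by norm_num :
    (0 : ℝ) ≤ 2))) hB.le]

/-! ### Limit points of the amplitudes -/

/-- the limit points of `u n / n ^ c` along the parity `p` -/
def AmpLims (u : ℕ → ℝ) (c : ℝ) (p : ℕ) : Set ℝ :=
  {B | MapClusterPt B (atTop ⊓ 𝓟 {n : ℕ | n % 2 = p}) (fun n : ℕ => u n / (n : ℝ) ^ c)}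

lemma mem_amp {c : ℝ} {p : ℕ} {B : ℝ} : B ∈ AmpLims u c p ↔
    ∀ s ∈ 𝓝 B, ∃ᶠ n : ℕ in atTop, n % 2 = p ∧ u n / (n : ℝ) ^ c ∈ s := by
  show MapClusterPt B _ _ ↔ _
  rw [mapClusterPt_iff_frequently]
  refine forall₂_congr fun s _ => ?_
  rw [frequently_inf_principal]
  rfl

theorem amp_closed (c : ℝ) (p : ℕ) : IsClosed (AmpLims u c p) := isClosed_setOfPred_clusterPt

lemma amp_low {c : ℝ} {p : ℕ} {B B' : ℝ} (h : B ∈ AmpLims u c p) (hB : B < B') :
    ∃ᶠ n : ℕ in atTop, n % 2 = p ∧ u n / (n : ℝ) ^ c ≤ B' :=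
  (mem_amp.1 h _ (Iio_mem_nhds hB)).mono fun n hn => ⟨hn.1, le_of_lt hn.2⟩

lemma amp_high {c : ℝ} {p : ℕ} {B B' : ℝ} (h : B ∈ AmpLims u c p) (hB : B' < B) :
    ∃ᶠ n : ℕ in atTop, n % 2 = p ∧ B' ≤ u n / (n : ℝ) ^ c :=
  (mem_amp.1 h _ (Ioi_mem_nhds hB)).mono fun n hn => ⟨hn.1, le_of_lt hn.2⟩

lemma amp_nonneg (S : Slow u r M) {c : ℝ} {p : ℕ} {B : ℝ} (h : B ∈ AmpLims u c p) : 0 ≤ B := by
  by_contra hcon
  push Not at hcon
  obtain ⟨n, -, h1⟩ := (mem_amp.1 h _ (Iio_mem_nhds hcon)).exists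
  have h2 : u n / (n : ℝ) ^ c < 0 := h1
  have h3 : 0 ≤ u n / (n : ℝ) ^ c :=
    div_nonneg (S.pos n).le (Real.rpow_nonneg (Nat.cast_nonneg n) c)
  linarith

lemma amp_mem (S : Slow u r M) {c B : ℝ} {p : ℕ}
    (h : ∃ᶠ n : ℕ in atTop, n % 2 = p ∧ |u n / (n : ℝ) ^ c - B| ≤ B * (2 * r n + 2 * |c| / n)) :
    B ∈ AmpLims u c p := by
  rw [mem_amp]
  intro s hs
  obtain ⟨δ, hδ, hs⟩ := Metric.mem_nhds_iff.mp hs
  have t : Tendsto (fun n : ℕ => B * (2 * r n + 2 * |c| / n)) atTop (𝓝 0) := by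
    have t1 := S.lim.const_mul 2
    have t2 : Tendsto (fun n : ℕ => 2 * |c| / (n : ℝ)) atTop (𝓝 0) :=
      tendsto_const_div_atTop_nhds_zero_nat _
    have := (t1.add t2).const_mul B
    simpa using this
  refine (h.and_eventually (t.eventually_lt_const hδ)).mono ?_
  rintro n ⟨⟨a1, a2⟩, a3⟩
  refine ⟨a1, hs ?_⟩
  rw [Metric.mem_ball, Real.dist_eq]
  linarith

/-- the limit points of the amplitudes along one parity form an interval -/
theorem amp_ord (S : Slow u r M) (c : ℝ) (p : ℕ) : (AmpLims u c p).OrdConnected := by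
  refine ⟨fun x hx y hy B hB => ?_⟩
  rcases eq_or_lt_of_le hB.1 with h | h
  · rwa [← h]
  rcases eq_or_lt_of_le hB.2 with h' | h'
  · rwa [h']
  have hx0 := amp_nonneg S hx
  exact amp_mem S (amp_cross S (B₁ := (x + B) / 2) (B₂ := (y + B) / 2) (by linarith) (by linarith)
    (by linarith) (amp_low hx (by linarith)) (amp_high hy (by linarith)))

lemma not_tendsto' {g : ℕ → ℝ} {γ : ℝ} {p : ℕ}
    (h : ¬ Tendsto g (atTop ⊓ 𝓟 {n : ℕ | n % 2 = p}) (𝓝 γ)) :
    ∃ ε : ℝ, 0 < ε ∧ ((∃ᶠ n in atTop, n % 2 = p ∧ g n ≤ γ - ε) ∨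
      ∃ᶠ n in atTop, n % 2 = p ∧ γ + ε ≤ g n) := by
  rw [Metric.tendsto_nhds] at h
  push Not at h
  obtain ⟨ε, hε, h⟩ := h
  refine ⟨ε, hε, ?_⟩
  rw [← frequently_or_distrib]
  have h' : ∃ᶠ n in atTop ⊓ 𝓟 {n : ℕ | n % 2 = p}, ε ≤ dist (g n) γ := by
    simpa using h
  rw [frequently_inf_principal] at h'
  refine h'.mono ?_
  rintro n ⟨h0, h1⟩
  have h0' : n % 2 = p := h0
  rw [Real.dist_eq] at h1
  rcases le_abs.mp h1 with h2 | h2
  · right; exact ⟨h0', by linarith⟩
  · left; exact ⟨h0', by linarith⟩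

/-- a positive limit point near which there are only countably many is the limit -/
theorem amp_isolated (S : Slow u r M) {c B : ℝ} (hB : 0 < B) (p : ℕ) (hp : p ≤ 1) :
    Tendsto (fun n : ℕ => u n / (n : ℝ) ^ c) (atTop ⊓ 𝓟 {n : ℕ | n % 2 = p}) (𝓝 B) ↔
      B ∈ AmpLims u c p ∧ ∃ δ : ℝ, 0 < δ ∧
        (AmpLims u c p ∩ Set.Ioo (B - δ) (B + δ)).Countable := by
  have hne : (atTop ⊓ 𝓟 {n : ℕ | n % 2 = p} : Filter ℕ).NeBot := by
    rw [← frequently_mem_iff_neBot, frequently_atTop]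
    intro N
    refine ⟨2 * N + p, by omega, ?_⟩
    show (2 * N + p) % 2 = p
    omega
  constructor
  · intro h
    refine ⟨h.mapClusterPt, 1, one_pos, ?_⟩
    refine (Set.countable_singleton B).mono ?_
    rintro x ⟨hx, -⟩
    by_contra hne'
    have hx' : MapClusterPt x (atTop ⊓ 𝓟 {n : ℕ | n % 2 = p})
      (fun n : ℕ => u n / (n : ℝ) ^ c) := hx
    rw [mapClusterPt_iff_frequently] at hx'
    obtain ⟨s, t, hs, ht, hst⟩ := t2_separation_nhds hne'
    obtain ⟨n, hn1, hn2⟩ := ((hx' s hs).and_eventually (h.eventually ht)).exists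
    exact (Set.disjoint_left.mp hst hn1 hn2)
  · rintro ⟨hm, δ, hδ, hc⟩
    by_contra hcon
    obtain ⟨ε, hε, h | h⟩ := not_tendsto' hcon
    · have hsub : Set.Ioo (B - min (min ε δ) B) B ⊆
          AmpLims u c p ∩ Set.Ioo (B - δ) (B + δ) := by
        intro x hx
        have m1 := min_le_left (min ε δ) B
        have m2 := min_le_right (min ε δ) B
        have m3 := min_le_left ε δ
        have m4 := min_le_right ε δ
        refine ⟨?_, by linarith [hx.1], by linarith [hx.2]⟩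
        exact amp_mem S (amp_cross S (B₁ := B - ε) (B₂ := (B + x) / 2) (by linarith [hx.1])
          (by linarith [hx.1]) (by linarith [hx.2]) h (amp_high hm (by linarith [hx.2])))
      have := (hc.mono hsub)
      exact (Cardinal.Real.Ioo_countable_iff.mp this).not_gt (by
        have := lt_min (lt_min hε hδ) hB
        linarith)
    · have hsub : Set.Ioo B (B + min ε δ) ⊆ AmpLims u c p ∩ Set.Ioo (B - δ) (B + δ) := by
        intro x hx
        have m1 := min_le_left ε δ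
        have m2 := min_le_right ε δ
        refine ⟨?_, by linarith [hx.1], by linarith [hx.2]⟩
        exact amp_mem S (amp_cross S (B₁ := (B + x) / 2) (B₂ := B + ε) (by linarith [hx.1])
          (by linarith [hx.1]) (by linarith [hx.2]) (amp_low hm (by linarith [hx.1])) h)
      have := (hc.mono hsub)
      exact (Cardinal.Real.Ioo_countable_iff.mp this).not_gt (by
        have := lt_min hε hδ
        linarith)

end Pool.Agent.Zk87.SW
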